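import Mathlib

/-! Definitions for the problem on attractive c.e. degrees. Subsets of `ℕ` are functions
`ℕ → Bool`. -/

set_option autoImplicit false
open Filter MeasureTheory

namespace Pool.Agent.P.MP_ef7593_lc

/-- The characteristic function of `X`, as an oracle. -/
def chi (X : ℕ → Bool) : ℕ →. ℕ := fun n => Part.some (if X n then 1 else 0)

/-- Upper density `limsup |X ∩ [0, n)| / n`. -/
noncomputable def upperDensity (X : ℕ → Bool) : ℝ :=
  limsup (fun n : ℕ => (((Finset.range n).filter fun i => X i = true).card : ℝ) / n) atTop

/-- The distance `δ`: upper density of the symmetric difference. -/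
noncomputable def delta (X Y : ℕ → Bool) : ℝ := upperDensity fun i => xor (X i) (Y i)

/-- The `δ`-closure of the Turing degree of `A` (as a set of representatives). -/
def degClosure (A : ℕ → Bool) : Set (ℕ → Bool) :=
  {X | ∀ ε : ℝ, 0 < ε → ∃ C : ℕ → Bool, TuringEquivalent (chi C) (chi A) ∧ delta X C < ε}

/-- The Hausdorff distance `H` between the closures of the degrees of `A` and `B`. -/
noncomputable def hausdorff (A B : ℕ → Bool) : ℝ :=
  max (⨆ x : degClosure A, ⨅ y : degClosure B, delta x y)
    (⨆ y : degClosure B, ⨅ x : degClosure A, delta x y)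

/-- The fair coin-toss measure on Cantor space. -/
noncomputable def coin : Measure (ℕ → Bool) :=
  Measure.infinitePi fun _ : ℕ => (PMF.uniformOfFintype Bool).toMeasure

/-- `A` is attractive: `H(A, B) = 1/2` for a measure one class of `B`. -/
def Attractive (A : ℕ → Bool) : Prop := coin {B | hausdorff A B = 1 / 2} = 1

/-- `W` is computably enumerable in `X`: the domain of a partial function recursive in `X`. -/
def CEIn (X W : ℕ → Bool) : Prop :=
  ∃ f : ℕ →. ℕ, TuringReducible f (chi X) ∧ ∀ n, W n = true ↔ (f n).Dom

/-- `J` has the degree of the Turing jump of `X`: it is c.e. in `X` and computes every set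
c.e. in `X`. -/
def IsJump (X J : ℕ → Bool) : Prop :=
  CEIn X J ∧ ∀ W : ℕ → Bool, CEIn X W → TuringReducible (chi W) (chi J)

/-- `A` is high: its jump is Turing equivalent to the double jump of the empty set. -/
def High (A : ℕ → Bool) : Prop :=
  ∃ A' K K' : ℕ → Bool, IsJump A A' ∧ IsJump (fun _ => false) K ∧ IsJump K K' ∧
    TuringEquivalent (chi A') (chi K')

end Pool.Agent.P.MP_ef7593_lc
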