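import Mathlib
import Pool.Agent.P.MP_ef7593_lc.Defs

/-! Closure properties of oracle computability, and the use principle. -/

set_option autoImplicit false
set_option backward.isDefEq.respectTransparency false
open Encodable Filter

namespace Pool.Agent.P.MP_ef7593_lc

section api

variable {O : Set (ℕ →. ℕ)} {α β γ σ : Type} [Primcodable α] [Primcodable β] [Primcodable γ]
  [Primcodable σ]

theorem nat_some : Nat.RecursiveIn O Part.some := Nat.Partrec.recursiveIn Nat.Partrec.some

theorem nat_prec' {f g h : ℕ →. ℕ} (hf : Nat.RecursiveIn O f) (hg : Nat.RecursiveIn O g)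
    (hh : Nat.RecursiveIn O h) :
    Nat.RecursiveIn O fun a => (f a).bind fun n => n.rec (g a)
      fun y IH => do {let i ← IH; h (Nat.pair a (Nat.pair y i))} :=
  ((Nat.RecursiveIn.prec hg hh).comp (Nat.RecursiveIn.pair nat_some hf)).of_eq fun a =>
    Part.ext fun s => by simp [Seq.seq]

theorem ri_bind {f : α →. β} {g : α → β →. σ} (hf : RecursiveIn O f) (hg : RecursiveIn₂ O g) :
    RecursiveIn O fun a => (f a).bind (g a) :=
  (Nat.RecursiveIn.comp hg (Nat.RecursiveIn.pair nat_some hf)).of_eq fun n => by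
    rcases e : decode (α := α) n <;> simp [Seq.seq, e, encodek]

theorem ri_map {f : α →. β} {g : α → β → σ} (hf : RecursiveIn O f) (hg : ComputableIn₂ O g) :
    RecursiveIn O fun a => (f a).map (g a) := by
  simpa [Part.bind_some_eq_map] using ri_bind (g := fun a x => Part.some (g a x)) hf hg

theorem ri_comp {f : β →. σ} {g : α → β} (hf : RecursiveIn O f) (hg : ComputableIn O g) :
    RecursiveIn O fun a => f (g a) :=
  (Nat.RecursiveIn.comp hf hg).of_eq fun n => by
    simp only [Part.map_some, Part.bind_eq_bind]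
    rcases e : decode (α := α) n with - | a <;> simp [encodek]

theorem ci_comp {f : β → σ} {g : α → β} (hf : ComputableIn O f) (hg : ComputableIn O g) :
    ComputableIn O fun a => f (g a) :=
  ri_comp (f := fun b => Part.some (f b)) hf hg

theorem ci_pair {f : α → β} {g : α → γ} (hf : ComputableIn O f) (hg : ComputableIn O g) :
    ComputableIn O fun a => (f a, g a) :=
  (Nat.RecursiveIn.pair hf hg).of_eq fun n => by cases decode (α := α) n <;> simp [Seq.seq]

theorem ci_of_eq {f g : α → σ} (hf : ComputableIn O f) (H : ∀ a, f a = g a) :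
    ComputableIn O g := (funext H : f = g) ▸ hf

theorem ri_rfind {p : α → ℕ →. Bool} (hp : RecursiveIn₂ O p) :
    RecursiveIn O fun a => Nat.rfind (p a) :=
  (Nat.RecursiveIn.rfind <| ri_map hp
      ((Primrec.dom_bool fun b => cond b 0 1).comp Primrec.snd).to₂.computableIn₂).of_eq
    fun n => by
    rcases e : decode (α := α) n <;> simp [e, Nat.rfind_zero_none, Part.map_map, Part.map_id']

theorem ri_nat_rec {f : α → ℕ} {g : α →. σ} {h : α → ℕ × σ →. σ} (hf : ComputableIn O f)
    (hg : RecursiveIn O g) (hh : RecursiveIn₂ O h) :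
    RecursiveIn O fun a => (f a).rec (g a) fun y IH => IH.bind fun i => h a (y, i) :=
  (nat_prec' hf hg hh).of_eq fun n => by
    rcases e : decode (α := α) n with - | a
    · simp
    · simp only [Part.coe_some, Part.bind_some, Part.map_some]
      induction f a <;> simp_all

theorem ci_nat_rec {f : α → ℕ} {g : α → σ} {h : α → ℕ × σ → σ} (hf : ComputableIn O f)
    (hg : ComputableIn O g) (hh : ComputableIn₂ O h) :
    ComputableIn O fun a =>
      Nat.rec (motive := fun _ => σ) (g a) (fun y IH => h a (y, IH)) (f a) :=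
  (ri_nat_rec hf hg hh.recursiveIn₂).of_eq fun a => by simp; induction f a <;> simp [*]

/-- A total search with a decidable-in-`O` predicate. -/
theorem ci_find {p : α → ℕ → Bool} (hp : ComputableIn₂ O p) (h : ∀ a, ∃ n, p a n = true) :
    ComputableIn O fun a => Nat.find (h a) := by
  refine RecursiveIn.of_eq_tot (ri_rfind hp.recursiveIn₂) fun a => ?_
  rw [Nat.mem_rfind]
  refine ⟨by simpa using Nat.find_spec (h a), fun {m} hm => ?_⟩
  simpa using Nat.find_min (h a) hm

end api

/-- The initial segment of length `s`. -/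
def seg (X : ℕ → Bool) (s : ℕ) : List Bool := (List.range s).map X

@[simp] theorem seg_length (X : ℕ → Bool) (s : ℕ) : (seg X s).length = s := by simp [seg]

theorem seg_take (X : ℕ → Bool) {l s : ℕ} (h : l ≤ s) : (seg X s).take l = seg X l := by
  simp [seg, ← List.map_take, List.take_range, min_eq_left h]

theorem seg_isPrefix (X : ℕ → Bool) {l s : ℕ} (h : l ≤ s) : seg X l <+: seg X s := by
  rw [← seg_take X h]; exact List.take_prefix _ _

theorem seg_getElem? (X : ℕ → Bool) {n s : ℕ} (h : n < s) : (seg X s)[n]? = some (X n) := by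
  simp [seg, h]

theorem seg_eq_iff {X Y : ℕ → Bool} {s : ℕ} : seg X s = seg Y s ↔ ∀ i < s, X i = Y i := by
  simp [seg, List.map_inj_left]

theorem ci_self (X : ℕ → Bool) : ComputableIn {chi X} X := by
  have h1 : ComputableIn {chi X} (fun n => if X n then 1 else 0 : ℕ → ℕ) :=
    RecursiveIn.oracle (chi X) rfl
  refine ci_of_eq (ci_comp
    (Primrec.eq.decide.comp Primrec.id (Primrec.const 1)).computableIn h1) fun n => ?_
  cases X n <;> simp

theorem tr_of_ci {O : Set (ℕ →. ℕ)} {Y : ℕ → Bool} (h : ComputableIn O Y) :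
    RecursiveIn O (chi Y) :=
  ci_comp (f := fun b : Bool => if b then 1 else 0) (Primrec.dom_bool _).computableIn h

theorem ci_of_tr {X Y : ℕ → Bool} (h : TuringReducible (chi Y) (chi X)) :
    ComputableIn {chi X} Y :=
  RecursiveIn.subst (ci_self Y) (by simpa using h)

theorem ci_seg {O : Set (ℕ →. ℕ)} {X : ℕ → Bool} (h : ComputableIn O X) :
    ComputableIn O (seg X) := by
  have := ci_nat_rec (O := O) (f := fun s : ℕ => s) (g := fun _ => ([] : List Bool))
    (h := fun _ p => p.2 ++ [X p.1]) ComputableIn.id (ComputableIn.const _)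
    (ci_comp Primrec.list_concat.computableIn
      (ci_pair (Primrec.snd.comp Primrec.snd).computableIn
        (ci_comp h (Primrec.fst.comp Primrec.snd).computableIn)))
  refine ci_of_eq this fun s => ?_
  induction s with
  | zero => rfl
  | succ s ih => simp [seg, List.range_succ] at ih ⊢; exact ih

/-- A monotone functional `F` that computes `f` from the initial segments of `X`. -/
structure IsUse (X : ℕ → Bool) (f : ℕ →. ℕ) (F : ℕ → List Bool →. ℕ) : Prop where
  part : Partrec₂ F
  mono : ∀ x σ τ v, σ <+: τ → v ∈ F x σ → v ∈ F x τ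
  sound : ∀ x s v, v ∈ F x (seg X s) → v ∈ f x
  complete : ∀ x v, v ∈ f x → ∀ᶠ s in atTop, v ∈ F x (seg X s)

theorem isUse_partrec (X : ℕ → Bool) {f : ℕ →. ℕ} (hf : Nat.Partrec f) :
    IsUse X f fun x _ => f x :=
  ⟨(Partrec.nat_iff.2 hf).comp Computable.fst, fun _ _ _ _ _ h => h, fun _ _ _ h => h,
    fun _ _ h => Eventually.of_forall fun _ => h⟩

theorem exists_use {X : ℕ → Bool} {f : ℕ →. ℕ} (hf : RecursiveIn {chi X} f) :
    ∃ F, IsUse X f F := by
  rw [RecursiveIn.iff_nat] at hf
  induction hf with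
  | zero => exact ⟨_, isUse_partrec X Nat.Partrec.zero⟩
  | succ => exact ⟨_, isUse_partrec X Nat.Partrec.succ⟩
  | left => exact ⟨_, isUse_partrec X Nat.Partrec.left⟩
  | right => exact ⟨_, isUse_partrec X Nat.Partrec.right⟩
  | oracle g hg =>
    obtain rfl : g = chi X := hg
    refine ⟨fun x σ => ((σ[x]?.map fun b => if b then 1 else 0 : Option ℕ) : Part ℕ),
      ?_, ?_, ?_, ?_⟩
    · exact Computable.ofOption (Primrec.option_map
        (Primrec.list_getElem?.comp Primrec.snd Primrec.fst)
        ((Primrec.dom_bool fun b => if b then 1 else 0).comp Primrec.snd).to₂).to_comp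
    · rintro x σ _ v ⟨ρ, rfl⟩ h
      simp only [Part.mem_ofOption, Option.mem_def, Option.map_eq_some_iff] at h ⊢
      obtain ⟨b, hb, h⟩ := h
      refine ⟨b, ?_, h⟩
      rw [List.getElem?_append_left (List.getElem?_eq_some_iff.1 hb).1, hb]
    · intro x s v h
      simp only [Part.mem_ofOption, Option.mem_def, Option.map_eq_some_iff] at h
      obtain ⟨b, hb, h⟩ := h
      have hx : x < s := by simpa using (List.getElem?_eq_some_iff.1 hb).1
      rw [seg_getElem? X hx, Option.some.injEq] at hb
      simp [chi, hb, h]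
    · intro x v h
      filter_upwards [eventually_gt_atTop x] with s hs
      simp only [chi, Part.mem_some_iff] at h
      simp [seg_getElem? X hs, h]
  | pair _ _ ih1 ih2 =>
    obtain ⟨F, hF⟩ := ih1
    obtain ⟨G, hG⟩ := ih2
    refine ⟨fun x σ => (F x σ).bind fun a => (G x σ).map (Nat.pair a), ?_, ?_, ?_, ?_⟩
    · exact Partrec.bind hF.part (Partrec.map (hG.part.comp (Computable.fst.comp Computable.fst)
        (Computable.snd.comp Computable.fst))
        (Primrec₂.natPair.comp (Primrec.snd.comp Primrec.fst) Primrec.snd).to₂.to_comp).to₂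
    · intro x σ τ v h hv
      simp only [Part.mem_bind_iff, Part.mem_map_iff] at hv ⊢
      obtain ⟨a, ha, b, hb, e⟩ := hv
      exact ⟨a, hF.mono _ _ _ _ h ha, b, hG.mono _ _ _ _ h hb, e⟩
    · intro x s v hv
      simp only [Part.mem_bind_iff, Part.mem_map_iff] at hv
      obtain ⟨a, ha, b, hb, e⟩ := hv
      simp only [Seq.seq, Part.map_eq_map, Part.mem_bind_iff, Part.mem_map_iff]
      exact ⟨_, ⟨a, hF.sound _ _ _ ha, rfl⟩, b, hG.sound _ _ _ hb, e⟩
    · intro x v hv
      simp only [Seq.seq, Part.map_eq_map, Part.mem_bind_iff, Part.mem_map_iff] at hv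
      obtain ⟨_, ⟨a, ha, rfl⟩, b, hb, e⟩ := hv
      filter_upwards [hF.complete _ _ ha, hG.complete _ _ hb] with s h1 h2
      simp only [Part.mem_bind_iff, Part.mem_map_iff]
      exact ⟨a, h1, b, h2, e⟩
  | comp _ _ ih1 ih2 =>
    obtain ⟨F, hF⟩ := ih1
    obtain ⟨G, hG⟩ := ih2
    refine ⟨fun x σ => (G x σ).bind fun a => F a σ, ?_, ?_, ?_, ?_⟩
    · exact Partrec.bind hG.part (hF.part.comp Computable.snd
        (Computable.snd.comp Computable.fst)).to₂
    · intro x σ τ v h hv
      simp only [Part.mem_bind_iff] at hv ⊢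
      obtain ⟨a, ha, hb⟩ := hv
      exact ⟨a, hG.mono _ _ _ _ h ha, hF.mono _ _ _ _ h hb⟩
    · intro x s v hv
      simp only [Part.mem_bind_iff, Part.bind_eq_bind] at hv ⊢
      obtain ⟨a, ha, hb⟩ := hv
      exact ⟨a, hG.sound _ _ _ ha, hF.sound _ _ _ hb⟩
    · intro x v hv
      simp only [Part.mem_bind_iff, Part.bind_eq_bind] at hv
      obtain ⟨a, ha, hb⟩ := hv
      filter_upwards [hG.complete _ _ ha, hF.complete _ _ hb] with s h1 h2
      exact Part.mem_bind_iff.2 ⟨a, h1, h2⟩
  | prec _ _ ih1 ih2 =>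
    obtain ⟨F, hF⟩ := ih1
    obtain ⟨G, hG⟩ := ih2
    refine ⟨fun x σ => Nat.rec (motive := fun _ => Part ℕ) (F x.unpair.1 σ)
      (fun y IH => IH.bind fun i => G (Nat.pair x.unpair.1 (Nat.pair y i)) σ) x.unpair.2,
      ?_, ?_, ?_, ?_⟩
    · exact Partrec.nat_rec (f := fun p : ℕ × List Bool => p.1.unpair.2)
        (g := fun p => F p.1.unpair.1 p.2)
        (h := fun p q => G (Nat.pair p.1.unpair.1 (Nat.pair q.1 q.2)) p.2)
        (Primrec.snd.comp (Primrec.unpair.comp Primrec.fst)).to_comp
        (hF.part.comp (Primrec.fst.comp (Primrec.unpair.comp Primrec.fst)).to_comp Computable.snd)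
        (hG.part.comp (Primrec₂.natPair.comp
            (Primrec.fst.comp (Primrec.unpair.comp (Primrec.fst.comp Primrec.fst)))
            (Primrec₂.natPair.comp (Primrec.fst.comp Primrec.snd)
              (Primrec.snd.comp Primrec.snd))).to_comp
          (Computable.snd.comp Computable.fst)).to₂
    · intro x σ τ v h
      induction x.unpair.2 generalizing v with
      | zero => exact hF.mono _ _ _ _ h
      | succ n ih =>
        intro hv
        simp only [Part.mem_bind_iff] at hv ⊢
        obtain ⟨a, ha, hb⟩ := hv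
        exact ⟨a, ih a ha, hG.mono _ _ _ _ h hb⟩
    · intro x s v
      simp only
      induction x.unpair.2 generalizing v with
      | zero => exact hF.sound _ _ _
      | succ n ih =>
        intro hv
        simp only [Part.mem_bind_iff, Part.bind_eq_bind] at hv ⊢
        obtain ⟨a, ha, hb⟩ := hv
        exact ⟨a, ih a ha, hG.sound _ _ _ hb⟩
    · intro x v
      simp only
      induction x.unpair.2 generalizing v with
      | zero => exact hF.complete _ _
      | succ n ih =>
        intro hv
        simp only [Part.mem_bind_iff, Part.bind_eq_bind] at hv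
        obtain ⟨a, ha, hb⟩ := hv
        filter_upwards [ih a ha, hG.complete _ _ hb] with s h1 h2
        exact Part.mem_bind_iff.2 ⟨a, h1, h2⟩
  | rfind _ ih =>
    obtain ⟨F, hF⟩ := ih
    refine ⟨fun x σ => Nat.rfind fun n => (F (Nat.pair x n) σ).map fun m => decide (m = 0),
      ?_, ?_, ?_, ?_⟩
    · exact Partrec.rfind (p := fun (p : ℕ × List Bool) n =>
          (F (Nat.pair p.1 n) p.2).map fun m => decide (m = 0))
        (Partrec.map (hF.part.comp (Primrec₂.natPair.comp (Primrec.fst.comp Primrec.fst)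
          Primrec.snd).to_comp (Computable.snd.comp Computable.fst))
          (Primrec.eq.decide.comp Primrec.snd (Primrec.const 0)).to₂.to_comp).to₂
    · intro x σ τ v h hv
      simp only [Nat.mem_rfind, Part.mem_map_iff] at hv ⊢
      obtain ⟨⟨a, ha, e⟩, h2⟩ := hv
      refine ⟨⟨a, hF.mono _ _ _ _ h ha, e⟩, fun {m} hm => ?_⟩
      obtain ⟨b, hb, e⟩ := h2 hm
      exact ⟨b, hF.mono _ _ _ _ h hb, e⟩
    · intro x s v hv
      simp only [Nat.mem_rfind, Part.mem_map_iff, Part.map_eq_map] at hv ⊢
      obtain ⟨⟨a, ha, e⟩, h2⟩ := hv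
      refine ⟨⟨a, hF.sound _ _ _ ha, e⟩, fun {m} hm => ?_⟩
      obtain ⟨b, hb, e⟩ := h2 hm
      exact ⟨b, hF.sound _ _ _ hb, e⟩
    · intro x v hv
      simp only [Nat.mem_rfind, Part.mem_map_iff, Part.map_eq_map] at hv
      obtain ⟨⟨a, ha, e⟩, h2⟩ := hv
      have h3 : ∀ m ∈ Set.Iio v, ∀ᶠ s in atTop,
          ∃ b ∈ F (Nat.pair x m) (seg X s), decide (b = 0) = false := by
        intro m hm
        obtain ⟨b, hb, e⟩ := h2 hm
        filter_upwards [hF.complete _ _ hb] with s hs using ⟨b, hs, e⟩
      filter_upwards [hF.complete _ _ ha, (eventually_all_finite (Set.finite_Iio v)).2 h3]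
        with s h1 h4
      simp only [Nat.mem_rfind, Part.mem_map_iff]
      exact ⟨⟨a, h1, e⟩, fun {m} hm => h4 m hm⟩

theorem IsUse.exists_code {X : ℕ → Bool} {f : ℕ →. ℕ} {F : ℕ → List Bool →. ℕ}
    (hF : IsUse X f F) :
    ∃ c : Nat.Partrec.Code, ∀ x σ, c.eval (Nat.pair x (encode σ)) = F x σ := by
  obtain ⟨c, hc⟩ := Nat.Partrec.Code.exists_code.1 hF.part
  refine ⟨c, fun x σ => ?_⟩
  rw [hc]
  simp [Part.map_id']

end Pool.Agent.P.MP_ef7593_lc
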