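import Mathlib
import Pool.Agent.P.MP_ef7593_lc.Oracle

/-! A concrete jump, approximations of c.e. sets, and the double jump as a finiteness problem. -/

set_option autoImplicit false
set_option backward.isDefEq.respectTransparency false
open Encodable Filter Denumerable
open Nat.Partrec (Code)
open Nat.Partrec.Code

namespace Pool.Agent.P.MP_ef7593_lc

theorem exists_unpair_ge (l k : ℕ) : ∃ s, k ≤ s ∧ s.unpair.1 = l :=
  ⟨Nat.pair l k, Nat.right_le_pair _ _, by simp⟩

theorem ceIn_of_exists {X W : ℕ → Bool} {p : ℕ → ℕ → Bool} (hp : ComputableIn₂ {chi X} p)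
    (h : ∀ n, W n = true ↔ ∃ s, p n s = true) : CEIn X W :=
  ⟨fun n => Nat.rfind fun s => Part.some (p n s), ri_rfind hp.recursiveIn₂, fun n => by
    rw [h, Nat.rfind_dom]; simp⟩

theorem ceIn_of_pred {X W : ℕ → Bool} {β : Type} [Primcodable β] {g : ℕ × ℕ → β}
    (hg : ComputableIn {chi X} g) {P : β → Prop} (hP : PrimrecPred P)
    (h : ∀ n, W n = true ↔ ∃ s, P (g (n, s))) : CEIn X W := by
  obtain ⟨inst, hP⟩ := hP
  have h1 := ci_comp hP.computableIn hg
  exact ceIn_of_exists (p := fun n s => decide (P (g (n, s)))) h1 (by simpa using h)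

theorem CEIn.mono {X Y W : ℕ → Bool} (h : CEIn X W) (hXY : TuringReducible (chi X) (chi Y)) :
    CEIn Y W := by
  obtain ⟨f, hf, h⟩ := h
  exact ⟨f, hf.trans hXY, h⟩

open Classical in
/-- The jump, through the enumeration of the effectively open classes. -/
noncomputable def J (X : ℕ → Bool) : ℕ → Bool := fun e =>
  decide (∃ l, (eval (ofNat Code e) (encode (seg X l))).Dom)

theorem J_iff (X : ℕ → Bool) (e : ℕ) :
    J X e = true ↔ ∃ l, (eval (ofNat Code e) (encode (seg X l))).Dom := by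
  simp [J]

theorem dom_iff_evaln (c : Code) (n : ℕ) :
    (eval c n).Dom ↔ ∃ k, (evaln k c n).isSome = true := by
  rw [Part.dom_iff_mem]
  constructor
  · rintro ⟨v, hv⟩
    obtain ⟨k, hk⟩ := evaln_complete.1 hv
    exact ⟨k, Option.isSome_iff_exists.2 ⟨v, hk⟩⟩
  · rintro ⟨k, hk⟩
    obtain ⟨v, hv⟩ := Option.isSome_iff_exists.1 hk
    exact ⟨v, evaln_sound hv⟩

theorem isSome_evaln_mono {c : Code} {n k k' : ℕ} (h : k ≤ k')
    (hk : (evaln k c n).isSome = true) : (evaln k' c n).isSome = true := by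
  obtain ⟨v, hv⟩ := Option.isSome_iff_exists.1 hk
  exact Option.isSome_iff_exists.2 ⟨v, evaln_mono h hv⟩

theorem isJump_J (X : ℕ → Bool) : IsJump X (J X) := by
  constructor
  · refine ceIn_of_exists (p := fun e s =>
      (evaln s (ofNat Code e) (encode (seg X s.unpair.1))).isSome) ?_ fun e => ?_
    · have h1 : Primrec fun q : (ℕ × ℕ) × List Bool =>
          (evaln q.1.2 (ofNat Code q.1.1) (encode q.2)).isSome :=
        Primrec.option_isSome.comp (primrec_evaln.comp
          (((Primrec.snd.comp Primrec.fst).pair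
            ((Primrec.ofNat Code).comp (Primrec.fst.comp Primrec.fst))).pair
            (Primrec.encode.comp Primrec.snd)))
      have h2 := ci_comp h1.computableIn (ci_pair ComputableIn.id (ci_comp (ci_seg (ci_self X))
        (Primrec.fst.comp (Primrec.unpair.comp Primrec.snd)).computableIn))
      exact h2
    · rw [J_iff]
      constructor
      · rintro ⟨l, hl⟩
        obtain ⟨k, hk⟩ := (dom_iff_evaln _ _).1 hl
        obtain ⟨s, hs, rfl⟩ := exists_unpair_ge l k
        exact ⟨s, isSome_evaln_mono hs hk⟩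
      · rintro ⟨s, hs⟩
        exact ⟨_, (dom_iff_evaln _ _).2 ⟨s, hs⟩⟩
  · rintro W ⟨f, hf, hW⟩
    obtain ⟨F, hF⟩ := exists_use hf
    obtain ⟨c, hc⟩ := hF.exists_code
    have h1 : Primrec fun x : ℕ => encode (curry c x) :=
      Primrec.encode.comp (primrec₂_curry.comp (Primrec.const c) Primrec.id)
    refine tr_of_ci (ci_of_eq (ci_comp (ci_self (J X)) h1.computableIn) fun x => ?_)
    rw [Bool.eq_iff_iff, J_iff, hW, ofNat_encode]
    simp only [eval_curry, hc, Part.dom_iff_mem]
    constructor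
    · rintro ⟨l, v, hv⟩
      exact ⟨v, hF.sound _ _ _ hv⟩
    · rintro ⟨v, hv⟩
      obtain ⟨s, hs⟩ := (hF.complete _ _ hv).exists
      exact ⟨s, v, hs⟩

/-- A primitive recursive monotone approximation of `W`. -/
structure Approx (W : ℕ → Bool) (a : ℕ → ℕ → Bool) : Prop where
  prim : Primrec₂ a
  mono : ∀ s t i, s ≤ t → a s i = true → a t i = true
  lim : ∀ i, W i = true ↔ ∃ s, a s i = true

theorem exists_approx {W : ℕ → Bool} {f : ℕ →. ℕ} (hf : Partrec f)
    (h : ∀ n, W n = true ↔ (f n).Dom) : ∃ a, Approx W a := by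
  obtain ⟨c, rfl⟩ := exists_code.1 (Partrec.nat_iff.1 hf)
  refine ⟨fun s i => (evaln s c i).isSome, ?_, fun s t i hst => isSome_evaln_mono hst,
    fun i => by rw [h, dom_iff_evaln]⟩
  exact Primrec.option_isSome.comp (primrec_evaln.comp
    ((Primrec.fst.pair (Primrec.const c)).pair Primrec.snd))

theorem CEIn.approx {W : ℕ → Bool} (h : CEIn (fun _ => false) W) : ∃ a, Approx W a := by
  obtain ⟨f, hf, h⟩ := h
  exact exists_approx (TuringReducible.partrec_of_const (s := Part.some 0) hf) h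

theorem approx_of_re {W : ℕ → Bool} (h : REPred fun n => W n = true) : ∃ a, Approx W a := by
  have h1 : Partrec fun n : ℕ =>
      (Part.assert (W n = true) fun _ => Part.some ()).map fun _ => (0 : ℕ) :=
    Partrec.map h (Computable.const 0).to₂
  exact exists_approx h1 fun n => by simp [Part.assert]

theorem Approx.ceIn {W : ℕ → Bool} {a : ℕ → ℕ → Bool} (h : Approx W a) (X : ℕ → Bool) :
    CEIn X W :=
  ceIn_of_exists (p := fun n s => a s n) (h.prim.swap).computableIn₂ h.lim

theorem Approx.prim_seg {W : ℕ → Bool} {a : ℕ → ℕ → Bool} (h : Approx W a) :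
    Primrec₂ fun s l => seg (a s) l :=
  Primrec.list_map (Primrec.list_range.comp Primrec.snd)
    (h.prim.comp (Primrec.fst.comp Primrec.fst) Primrec.snd).to₂

theorem Approx.persist {W : ℕ → Bool} {a : ℕ → ℕ → Bool} (h : Approx W a) {s t l : ℕ}
    (hst : s ≤ t) (hs : seg (a s) l = seg W l) : seg (a t) l = seg W l := by
  rw [seg_eq_iff] at hs ⊢
  intro i hi
  rw [Bool.eq_iff_iff]
  exact ⟨fun ht => (h.lim i).2 ⟨t, ht⟩, fun hw => h.mono s t i hst ((hs i hi).trans hw)⟩

theorem Approx.eventually {W : ℕ → Bool} {a : ℕ → ℕ → Bool} (h : Approx W a) (l : ℕ) :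
    ∀ᶠ s in atTop, seg (a s) l = seg W l := by
  have h1 : ∀ i ∈ Set.Iio l, ∀ᶠ s in atTop, a s i = W i := by
    intro i _
    cases hW : W i with
    | false =>
      refine Eventually.of_forall fun s => ?_
      cases ha : a s i with
      | false => rfl
      | true => rw [(h.lim i).2 ⟨s, ha⟩] at hW; exact hW
    | true =>
      obtain ⟨s, hs⟩ := (h.lim i).1 hW
      filter_upwards [eventually_ge_atTop s] with t ht using h.mono s t i ht hs
  filter_upwards [(eventually_all_finite (Set.finite_Iio l)).2 h1] with s hs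
  exact seg_eq_iff.2 hs

theorem Approx.stable {W : ℕ → Bool} {a : ℕ → ℕ → Bool} (h : Approx W a) {s l : ℕ}
    (hs : ∀ t, seg (a s) l = seg (a (s + t)) l) : seg (a s) l = seg W l := by
  obtain ⟨t, ht1, ht2⟩ := ((h.eventually l).and (eventually_ge_atTop s)).exists
  obtain ⟨d, rfl⟩ := Nat.exists_eq_add_of_le ht2
  rw [hs d, ht1]

theorem sigma2_J {K : ℕ → Bool} {a : ℕ → ℕ → Bool} (h : Approx K a) :
    ∃ R : ℕ × ℕ × ℕ → Bool, Primrec R ∧ ∀ e, J K e = true ↔ ∃ w, ∀ t, R (e, w, t) = true := by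
  refine ⟨fun q => (evaln q.2.1.unpair.2 (ofNat Code q.1)
      (encode (seg (a q.2.1.unpair.2) q.2.1.unpair.1))).isSome &&
      decide (seg (a q.2.1.unpair.2) q.2.1.unpair.1 =
        seg (a (q.2.1.unpair.2 + q.2.2)) q.2.1.unpair.1), ?_, fun e => ?_⟩
  · have h1 : Primrec fun q : ℕ × ℕ × ℕ => q.2.1.unpair.1 :=
      Primrec.fst.comp (Primrec.unpair.comp (Primrec.fst.comp Primrec.snd))
    have h2 : Primrec fun q : ℕ × ℕ × ℕ => q.2.1.unpair.2 :=
      Primrec.snd.comp (Primrec.unpair.comp (Primrec.fst.comp Primrec.snd))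
    have h3 := h.prim_seg.comp h2 h1
    have h4 := h.prim_seg.comp (Primrec.nat_add.comp h2 (Primrec.snd.comp Primrec.snd)) h1
    exact Primrec.and.comp (Primrec.option_isSome.comp (primrec_evaln.comp
      ((h2.pair ((Primrec.ofNat Code).comp Primrec.fst)).pair (Primrec.encode.comp h3))))
      (Primrec.eq.decide.comp h3 h4)
  · rw [J_iff]
    constructor
    · rintro ⟨l, hl⟩
      obtain ⟨k, hk⟩ := (dom_iff_evaln _ _).1 hl
      obtain ⟨s, hs1, hs2⟩ := ((h.eventually l).and (eventually_ge_atTop k)).exists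
      refine ⟨Nat.pair l s, fun t => ?_⟩
      simp only [Nat.unpair_pair, Bool.and_eq_true, decide_eq_true_eq]
      rw [h.persist (Nat.le_add_right s t) hs1, hs1]
      exact ⟨isSome_evaln_mono hs2 hk, rfl⟩
    · rintro ⟨w, hw⟩
      simp only [Bool.and_eq_true, decide_eq_true_eq] at hw
      have h1 := h.stable fun t => (hw t).2
      exact ⟨w.unpair.1, (dom_iff_evaln _ _).2 ⟨_, h1 ▸ (hw 0).1⟩⟩

/-- The pointer to the current candidate witness. -/
def ptr (R : ℕ × ℕ × ℕ → Bool) (e s : ℕ) : ℕ :=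
  Nat.rec 0 (fun s w => bif R (e, w, s.unpair.1) then w else w + 1) s

theorem ptr_succ (R : ℕ × ℕ × ℕ → Bool) (e s : ℕ) :
    ptr R e (s + 1) = bif R (e, ptr R e s, s.unpair.1) then ptr R e s else ptr R e s + 1 := rfl

theorem fin_of_sigma2 {R : ℕ × ℕ × ℕ → Bool} (hR : Primrec R) :
    ∃ ch : ℕ → ℕ → Bool, Primrec₂ ch ∧
      ∀ e, (∃ w, ∀ t, R (e, w, t) = true) ↔ ∃ N, ∀ s, N ≤ s → ch e s = false := by
  have hp : Primrec₂ (ptr R) :=
    Primrec.nat_rec (f := fun _ : ℕ => 0)
      (g := fun e (p : ℕ × ℕ) => bif R (e, p.2, p.1.unpair.1) then p.2 else p.2 + 1)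
      (Primrec.const 0)
      (Primrec.cond (hR.comp (Primrec.fst.pair ((Primrec.snd.comp Primrec.snd).pair
        (Primrec.fst.comp (Primrec.unpair.comp (Primrec.fst.comp Primrec.snd))))))
        (Primrec.snd.comp Primrec.snd) (Primrec.succ.comp (Primrec.snd.comp Primrec.snd))).to₂
  refine ⟨fun e s => !R (e, ptr R e s, s.unpair.1), ?_, fun e => ?_⟩
  · exact Primrec.not.comp (hR.comp (Primrec.fst.pair (Primrec.pair hp
      (Primrec.fst.comp (Primrec.unpair.comp Primrec.snd)))))
  · have hmono : Monotone (ptr R e) := monotone_nat_of_le_succ fun s => by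
      rw [ptr_succ]; cases R (e, ptr R e s, s.unpair.1) <;> simp
    constructor
    · rintro ⟨w, hw⟩
      have hb : ∀ s, ptr R e s ≤ w := by
        intro s
        induction s with
        | zero => exact Nat.zero_le _
        | succ s ih =>
          rw [ptr_succ]
          rcases ih.lt_or_eq with h | h
          · cases R (e, ptr R e s, s.unpair.1) <;> simp <;> omega
          · rw [h, hw]; simp
      obtain ⟨_, ⟨N, rfl⟩, hN⟩ := Set.exists_max_image (Set.range (ptr R e)) id
        ((Set.finite_Iic w).subset (by rintro _ ⟨s, rfl⟩; exact hb s)) ⟨_, 0, rfl⟩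
      refine ⟨N, fun s hs => ?_⟩
      have h1 := hN _ ⟨s + 1, rfl⟩
      have h2 := hmono hs
      rw [ptr_succ] at h1
      cases hh : R (e, ptr R e s, s.unpair.1) with
      | true => simp [hh]
      | false => rw [hh] at h1; simp at h1; omega
    · rintro ⟨N, hN⟩
      simp only [Bool.not_eq_false'] at hN
      have hc : ∀ s, N ≤ s → ptr R e s = ptr R e N := by
        intro s hs
        induction s, hs using Nat.le_induction with
        | base => rfl
        | succ s hs ih => rw [ptr_succ, hN s hs, ih]; rfl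
      refine ⟨ptr R e N, fun t => ?_⟩
      obtain ⟨s, hs, rfl⟩ := exists_unpair_ge t N
      rw [← hc s hs]
      exact hN s hs

/-- If an `A`-computable function bounds the next change for all but finitely many change
stages, then the jump of `A` decides whether there are finitely many changes. -/
theorem decide_fin {A S : ℕ → Bool} {ch : ℕ → ℕ → Bool} (hch : Primrec₂ ch)
    (hS : ∀ e, S e = true ↔ ∃ N, ∀ s, N ≤ s → ch e s = false)
    {f : ℕ → ℕ} (hf : ComputableIn {chi A} f)
    (hfin : ∀ e, ∃ N, ∀ s, N ≤ s → ch e s = true →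
      ∃ t, t ≤ f (Nat.pair e s) ∧ s < t ∧ ch e t = true) :
    TuringReducible (chi S) (chi (J A)) := by
  classical
  let W1 : ℕ → Bool := fun n => decide (∃ s, n.unpair.2 ≤ s ∧ ch n.unpair.1 s = true ∧
    ¬ ∃ t, t ≤ f (Nat.pair n.unpair.1 s) ∧ s < t ∧ ch n.unpair.1 t = true)
  let W2 : ℕ → Bool := fun n => decide (∃ s, n.unpair.2 ≤ s ∧ ch n.unpair.1 s = true)
  have u1 : Primrec fun q : ℕ × ℕ => q.1.unpair.1 :=
    Primrec.fst.comp (Primrec.unpair.comp Primrec.fst)
  have u2 : Primrec fun q : ℕ × ℕ => q.1.unpair.2 :=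
    Primrec.snd.comp (Primrec.unpair.comp Primrec.fst)
  have p2 : PrimrecPred fun q : ℕ × ℕ => q.1.unpair.2 ≤ q.2 ∧ ch q.1.unpair.1 q.2 = true :=
    (Primrec.nat_le.comp u2 Primrec.snd).and
      (Primrec.eq.comp (hch.comp u1 Primrec.snd) (Primrec.const true))
  have c2 : CEIn A W2 :=
    ceIn_of_pred ComputableIn.id p2 fun n => by simp [W2]
  have p3 : PrimrecRel fun (t : ℕ) (q : ℕ × ℕ) => q.2 < t ∧ ch q.1.unpair.1 t = true :=
    (Primrec.nat_lt.comp (Primrec.snd.comp Primrec.snd) Primrec.fst).and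
      (Primrec.eq.comp (hch.comp (u1.comp Primrec.snd) Primrec.fst) (Primrec.const true))
  have p1 : PrimrecPred fun r : (ℕ × ℕ) × ℕ =>
      (r.1.1.unpair.2 ≤ r.1.2 ∧ ch r.1.1.unpair.1 r.1.2 = true) ∧
      ¬ ∃ t ∈ List.range (r.2 + 1), r.1.2 < t ∧ ch r.1.1.unpair.1 t = true :=
    (p2.comp Primrec.fst).and (p3.exists_mem_list.comp
      (Primrec.list_range.comp (Primrec.succ.comp Primrec.snd)) Primrec.fst).not
  have c1 : CEIn A W1 := by
    have g1 := ci_pair ComputableIn.id
      (ci_comp hf (Primrec₂.natPair.comp u1 Primrec.snd).computableIn)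
    refine ceIn_of_pred g1 p1 fun n => ?_
    simp only [W1, id, decide_eq_true_eq, List.mem_range, Nat.lt_succ_iff, and_assoc]
  have d1 := ci_of_tr ((isJump_J A).2 W1 c1)
  have d2 := ci_of_tr ((isJump_J A).2 W2 c2)
  have hex : ∀ e, ∃ N, (!W1 (Nat.pair e N)) = true := by
    intro e
    obtain ⟨N, hN⟩ := hfin e
    refine ⟨N, ?_⟩
    simp only [W1, Nat.unpair_pair, Bool.not_eq_true', decide_eq_false_iff_not]
    rintro ⟨s, h1, h2, h3⟩
    exact h3 (hN s h1 h2)
  have pp : Primrec fun q : ℕ × ℕ => Nat.pair q.1 q.2 := Primrec₂.natPair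
  have d0 := ci_comp Primrec.not.computableIn (ci_comp d1 pp.computableIn)
  have d3 : ComputableIn {chi (J A)} fun e => Nat.find (hex e) :=
    ci_find (p := fun e N => !W1 (Nat.pair e N)) d0 hex
  have d4 := ci_comp Primrec.not.computableIn (ci_comp d2
    (ci_comp pp.computableIn (ci_pair ComputableIn.id d3)))
  refine tr_of_ci (ci_of_eq d4 fun e => ?_)
  have hN := Nat.find_spec (hex e)
  set N := Nat.find (hex e)
  simp only [W1, Nat.unpair_pair, Bool.not_eq_true', decide_eq_false_iff_not] at hN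
  rw [Bool.eq_iff_iff, hS]
  simp only [W2, id, Nat.unpair_pair, Bool.not_eq_true', decide_eq_false_iff_not]
  constructor
  · intro h
    exact ⟨N, fun s hs => by
      cases hc : ch e s with
      | false => rfl
      | true => exact absurd ⟨s, hs, hc⟩ h⟩
  · rintro ⟨M, hM⟩ ⟨s, hs, hc⟩
    obtain ⟨s', ⟨hs1, hs2⟩, hmax⟩ := Set.exists_max_image {s | N ≤ s ∧ ch e s = true} id
      ((Set.finite_Iio M).subset fun s hs => by
        by_contra hh
        have := hM s (not_lt.1 hh)
        rw [hs.2] at this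
        exact Bool.noConfusion this) ⟨s, hs, hc⟩
    refine hN ⟨s', hs1, hs2, ?_⟩
    rintro ⟨t, -, h1, h2⟩
    have := hmax t ⟨hs1.trans h1.le, h2⟩
    simp only [id] at this
    omega

end Pool.Agent.P.MP_ef7593_lc
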