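import Pool.Agent.P.MP_ef7593_lc.Conv

/-! Attractiveness from an approximation property. -/

set_option autoImplicit false
open Filter MeasureTheory

namespace Pool.Agent.P.MP_ef7593_lc

theorem ae_half (A : ℕ → Bool) :
    ∀ᵐ B ∂coin, ∀ C, ComputableIn {chi A} C → delta B C ≤ 1 / 2 := by
  filter_upwards [(ae_ball_iff (countable_bool A)).2 fun C _ =>
    ae_all_iff.2 fun k : ℕ => ae_close C (Nat.one_div_pos_of_nat (n := k))] with B b1 C hC
  refine le_of_forall_pos_le_add fun ε hε => ?_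
  obtain ⟨k, hk⟩ := exists_nat_one_div_lt hε
  linarith [b1 C hC k]

theorem ae_hausdorff_of_approx (A : ℕ → Bool) : ∀ᵐ B ∂coin,
    (∀ D : ℕ → Bool, ComputableIn {chi B} D → ∀ ε : ℝ, 0 < ε →
      ∃ C : ℕ → Bool, ComputableIn {chi A} C ∧ delta C D ≤ 1 / 2 + ε) → hausdorff A B = 1 / 2 := by
  filter_upwards [ae_half A] with B h1 h2
  refine hausdorff_eq h1 fun X hX ε hε => ?_
  obtain ⟨C, hC, d⟩ := h2 X (ci_of_tr hX) ε hε
  exact ⟨C, hC, by rwa [delta_comm]⟩

theorem attractive_of_approx {A : ℕ → Bool} (h : ∀ᵐ B ∂coin,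
    ∀ D : ℕ → Bool, ComputableIn {chi B} D → ∀ ε : ℝ, 0 < ε →
      ∃ C : ℕ → Bool, ComputableIn {chi A} C ∧ delta C D ≤ 1 / 2 + ε) : Attractive A := by
  have h1 : ∀ᵐ B ∂coin, B ∈ {B | hausdorff A B = 1 / 2} := by
    filter_upwards [ae_hausdorff_of_approx A, h] with B h1 h2 using h1 h2
  exact le_antisymm prob_le_one ((measure_univ (μ := coin)).ge.trans
    (measure_mono_ae (h1.mono fun _ hB _ => hB)))

end Pool.Agent.P.MP_ef7593_lc
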