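import Mathlib
import Pool.Agent.P.MP_ef7593_lc.Defs

/-! Independent cylinders for the coin-toss measure. -/

set_option autoImplicit false
open Filter MeasureTheory Topology
open scoped ENNReal

namespace Pool.Agent.P.MP_ef7593_lc

instance coin_prob : IsProbabilityMeasure coin := by
  unfold coin; infer_instance

/-- The sets whose first `k` bits are ones. -/
def ones (k : ℕ) : Set (ℕ → Bool) := Set.pi (Finset.range k : Finset ℕ) fun _ => {true}

theorem measurable_ones (k : ℕ) : MeasurableSet (ones k) :=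
  MeasurableSet.pi (Finset.countable_toSet _) fun _ _ => measurableSet_singleton _

theorem coin_ones (k : ℕ) : coin (ones k) = 2⁻¹ ^ k := by
  unfold coin ones
  rw [Measure.infinitePi_pi _ fun _ _ => measurableSet_singleton _]
  simp

/-- Splitting a set into its columns. -/
def cols (B : ℕ → Bool) : ℕ → ℕ → Bool := fun n i => B (Nat.pair n i)

theorem measurable_cols : Measurable cols := by
  unfold cols; fun_prop

theorem map_cols : coin.map cols = Measure.infinitePi fun _ : ℕ => coin := by
  have h1 := Measure.infinitePi_map_piCongrLeft (X := fun _ : ℕ × ℕ => Bool)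
    (fun _ : ℕ × ℕ => (PMF.uniformOfFintype Bool).toMeasure) Nat.pairEquiv.symm
  have h2 := Measure.infinitePi_map_curry (ι := ℕ) (κ := ℕ) (X := Bool)
    (fun _ _ => (PMF.uniformOfFintype Bool).toMeasure)
  unfold coin
  rw [← h2, ← h1, Measure.map_map (by fun_prop) (by fun_prop)]
  congr 1
  ext B n i
  simp [cols, MeasurableEquiv.piCongrLeft, Equiv.piCongrLeft, Nat.pairEquiv]

/-- The cylinder of the sets whose `n`-th column starts with `k` ones. -/
def cyl (k n : ℕ) : Set (ℕ → Bool) := {B | ∀ i < k, B (Nat.pair n i) = true}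

theorem cyl_eq (k n : ℕ) : cyl k n = (fun B => cols B n) ⁻¹' ones k := by
  ext B; simp [cyl, cols, ones]

theorem measurable_cyl (k n : ℕ) : MeasurableSet (cyl k n) := by
  rw [cyl_eq]
  exact ((measurable_pi_apply n).comp measurable_cols) (measurable_ones k)

theorem coin_pi (F : Finset ℕ) {t : Set (ℕ → Bool)} (ht : MeasurableSet t) :
    coin {B | ∀ n ∈ F, cols B n ∈ t} = coin t ^ F.card := by
  have : {B | ∀ n ∈ F, cols B n ∈ t} = cols ⁻¹' Set.pi F fun _ => t := by
    ext B; simp
  rw [this, ← Measure.map_apply measurable_cols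
    (MeasurableSet.pi (Finset.countable_toSet _) fun _ _ => ht), map_cols,
    Measure.infinitePi_pi _ fun _ _ => ht]
  simp

theorem coin_cyl (k n : ℕ) : coin (cyl k n) = 2⁻¹ ^ k := by
  have := coin_pi {n} (measurable_ones k)
  rw [Finset.card_singleton, pow_one, coin_ones] at this
  rw [← this, cyl_eq]
  congr 1
  ext B; simp

theorem coin_avoid (k : ℕ) {T : Set ℕ} (hT : T.Infinite) :
    coin {B | ∀ n ∈ T, B ∉ cyl k n} = 0 := by
  have hlt : coin (ones k)ᶜ < 1 := by
    rw [prob_compl_eq_one_sub (measurable_ones k), coin_ones]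
    exact ENNReal.sub_lt_self ENNReal.one_ne_top one_ne_zero (by simp)
  have hlim := ENNReal.tendsto_pow_atTop_nhds_zero_of_lt_one hlt
  refine le_antisymm (ge_of_tendsto' hlim fun m => ?_) (zero_le)
  obtain ⟨F, hF, hcard⟩ := hT.exists_subset_card_eq m
  rw [← hcard, ← coin_pi F (measurable_ones k).compl]
  refine measure_mono fun B hB n hn => ?_
  have := hB n (hF hn)
  rwa [cyl_eq] at this

theorem coin_iUnion_le (n : ℕ → ℕ) : coin (⋃ e, cyl (e + 2) (n e)) ≤ 2⁻¹ := by
  refine (measure_iUnion_le _).trans ?_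
  simp only [coin_cyl]
  have : ∀ e : ℕ, (2⁻¹ : ℝ≥0∞) ^ (e + 2) = 2⁻¹ * 2⁻¹ ^ (e + 1) := fun e => by ring
  simp only [this]
  rw [ENNReal.tsum_mul_left, ENNReal.tsum_geometric_add_one]
  simp [ENNReal.inv_mul_cancel]

end Pool.Agent.P.MP_ef7593_lc
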