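import Pool.Agent.P.MP_ef7593_lc.Defs

/-! Almost everywhere domination in the sense of Dobrinen and Simpson. -/

set_option autoImplicit false
open Filter

namespace Pool.Agent.P.MP_ef7593_lc

/-- `A` is almost everywhere dominating: for a measure one class of `B`, every total function
computable from `B` is dominated by some total function computable from `A`. -/
def AEDominating (A : ℕ → Bool) : Prop :=
  coin {B | ∀ t : ℕ → ℕ, ComputableIn {chi B} t →
    ∃ f : ℕ → ℕ, ComputableIn {chi A} f ∧ ∀ᶠ n in atTop, t n ≤ f n} = 1

end Pool.Agent.P.MP_ef7593_lc
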