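import Pool.Agent.P.MP_ef7593_lc.Greedy
import Pool.Agent.P.MP_ef7593_lc.DomDefs

/-! Almost everywhere dominating sets are attractive, and conversely for c.e. degrees. -/

set_option autoImplicit false
set_option backward.isDefEq.respectTransparency false
open Encodable Filter MeasureTheory Topology
open Nat.Partrec (Code)
open Nat.Partrec.Code

namespace Pool.Agent.P.MP_ef7593_lc

/-- The greedy choice. -/
def gch (p : ℕ → List Bool → Bool) (n : ℕ) (T : WS) : Bool :=
  decide (part (p n) false T ≤ part (p n) true T)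

theorem gch_le (p : ℕ → List Bool → Bool) (n : ℕ) (T : WS) :
    part (p n) (!gch p n T) T ≤ part (p n) (gch p n T) T := by
  unfold gch
  by_cases h : part (p n) false T ≤ part (p n) true T
  · simp [h]
  · simpa [h] using (not_le.1 h).le

theorem prim_ext : Primrec₂ fun (k : ℕ) (T : WS) => ext1^[k] T := by
  have h : Primrec ext1 := Primrec.list_flatMap Primrec.id (Primrec.list_cons.comp
    ((Primrec.list_concat.comp (Primrec.fst.comp Primrec.snd) (Primrec.const false)).pair
      (Primrec.snd.comp Primrec.snd)) (Primrec.list_cons.comp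
    ((Primrec.list_concat.comp (Primrec.fst.comp Primrec.snd) (Primrec.const true)).pair
      (Primrec.snd.comp Primrec.snd)) (Primrec.const []))).to₂
  exact Primrec.nat_iterate Primrec.fst Primrec.snd (h.comp Primrec.snd).to₂

theorem prim_gch {p : ℕ → List Bool → Bool} (hp : Primrec₂ p) : Primrec₂ (gch p) := by
  have h : ∀ y, Primrec fun q : ℕ × WS => part (p q.1) y q.2 := fun y =>
    Primrec.list_foldr (h := fun (q : ℕ × WS) (r : (List Bool × ℕ) × ℕ) =>
      (if p q.1 r.1.1 = y then r.1.2 else 0) + r.2) Primrec.snd (Primrec.const 0)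
      (Primrec.nat_add.comp (Primrec.ite (Primrec.eq.comp (hp.comp (Primrec.fst.comp Primrec.fst)
        (Primrec.fst.comp (Primrec.fst.comp Primrec.snd))) (Primrec.const y))
        (Primrec.snd.comp (Primrec.fst.comp Primrec.snd)) (Primrec.const 0))
        (Primrec.snd.comp Primrec.snd)).to₂
  exact (Primrec.nat_le.decide.comp (h false) (h true)).to₂

theorem ci_bit {O : Set (ℕ →. ℕ)} (m : ℕ) {p : ℕ → List Bool → Bool} (hp : Primrec₂ p)
    {g : ℕ → ℕ} (hg : ComputableIn O g) : ComputableIn O (bit m p g (gch p)) := by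
  have h1 : Primrec fun q : ℕ × WS => upd m (p q.1) (gch p q.1 q.2) q.2 :=
    Primrec.list_map Primrec.snd ((Primrec.fst.comp Primrec.snd).pair (Primrec.nat_mul.comp
      (Primrec.snd.comp Primrec.snd) (Primrec.ite (Primrec.eq.comp
        (hp.comp (Primrec.fst.comp Primrec.fst) (Primrec.fst.comp Primrec.snd))
        ((prim_gch hp).comp (Primrec.fst.comp Primrec.fst) (Primrec.snd.comp Primrec.fst)))
        (Primrec.const m) (Primrec.const (m + 2))))).to₂
  have h2 : ComputableIn O fun q : ℕ × WS => (q.1, ext1^[g q.1] q.2) :=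
    ci_pair Primrec.fst.computableIn (ci_comp (f := fun r : ℕ × WS => ext1^[r.1] r.2)
      (Primrec.computableIn prim_ext)
      (ci_pair (ci_comp hg Primrec.fst.computableIn) Primrec.snd.computableIn))
  have h3 : ComputableIn O (st m p g (gch p)) :=
    ci_nat_rec (O := O) (f := fun s : ℕ => s) (g := fun _ => ([([], 1)] : WS))
      (h := fun _ q => upd m (p q.1) (gch p q.1 (ext1^[g q.1] q.2)) (ext1^[g q.1] q.2))
      ComputableIn.id (ComputableIn.const _)
      (ci_comp (ci_comp h1.computableIn h2) Primrec.snd.computableIn)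
  exact ci_comp (f := fun r : ℕ × WS => gch p r.1 r.2) (Primrec.computableIn (prim_gch hp))
    (ci_comp h2 (ci_pair ComputableIn.id h3))

theorem ae_close (C : ℕ → Bool) {ε : ℝ} (hε : 0 < ε) : ∀ᵐ B ∂coin, delta B C ≤ 1 / 2 + ε := by
  obtain ⟨m, hm⟩ := exists_nat_gt (1 / ε)
  have := tail m (fun _ σ => σ.reverse.headI) (fun _ => 1) (fun n _ => C n)
    (fun n T => by simp only [Function.iterate_one, part_ext1, le_refl]) hε
    (by rwa [div_lt_iff₀' hε] at hm)
  filter_upwards [this] with B hB
  have e : (fun i => (seg B (len (fun _ => 1) (i + 1))).reverse.headI) = B := by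
    funext i
    simp [len, seg_succ]
  rwa [e] at hB

theorem ae_greedy {O : Set (ℕ →. ℕ)} {p : ℕ → List Bool → Bool} (hp : Primrec₂ p) {g : ℕ → ℕ}
    (hg : ComputableIn O g) {ε : ℝ} (hε : 0 < ε) : ∀ᵐ B ∂coin, ∃ Y, ComputableIn O Y ∧
      delta (fun i => p i (seg B (len g (i + 1)))) Y ≤ 1 / 2 + ε := by
  obtain ⟨m, hm⟩ := exists_nat_gt (1 / ε)
  filter_upwards [tail m p g (gch p) (fun n _ => gch_le p n _) hε
    (by rwa [div_lt_iff₀' hε] at hm)] with B hB using ⟨_, ci_bit m hp hg, hB⟩

theorem exists_time {B X : ℕ → Bool} (hX : TuringReducible (chi X) (chi B)) :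
    ∃ (c : Code) (t : ℕ → ℕ), ComputableIn {chi B} t ∧ ∀ x L, t x ≤ L →
      univ c x (seg B L) = some (if X x then 1 else 0) := by
  obtain ⟨F, hF⟩ := exists_use hX
  obtain ⟨c, hc⟩ := hF.exists_code
  have p1 : Primrec fun q : (ℕ × ℕ) × List Bool =>
      (evaln q.1.2 c (Nat.pair q.1.1 (encode q.2))).isSome :=
    Primrec.option_isSome.comp (primrec_evaln.comp
      (((Primrec.snd.comp Primrec.fst).pair (Primrec.const c)).pair
        (Primrec₂.natPair.comp (Primrec.fst.comp Primrec.fst) (Primrec.encode.comp Primrec.snd))))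
  have p2 := ci_comp p1.computableIn (ci_pair ComputableIn.id (ci_comp (ci_seg (ci_self B))
    (Primrec.fst.comp (Primrec.unpair.comp Primrec.snd)).computableIn))
  let p : ℕ → ℕ → Bool := fun x s => (evaln s c (Nat.pair x (encode (seg B s.unpair.1)))).isSome
  have hex : ∀ x, ∃ s, p x s = true := fun x => by
    obtain ⟨l, hl⟩ := (hF.complete x (if X x then 1 else 0) (by simp [chi])).exists
    rw [← hc] at hl
    obtain ⟨k, hk⟩ := (dom_iff_evaln _ _).1 (Part.dom_iff_mem.2 ⟨_, hl⟩)
    obtain ⟨s, hs, rfl⟩ := exists_unpair_ge l k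
    exact ⟨s, isSome_evaln_mono hs hk⟩
  refine ⟨c, fun x => Nat.find (hex x), ci_find (p := p) p2 hex, fun x L hL => ?_⟩
  have h2 := Nat.find_spec (hex x)
  set s := Nat.find (hex x)
  obtain ⟨v, hv⟩ := Option.isSome_iff_exists.1 h2
  have hl : s.unpair.1 ≤ L := (Nat.unpair_left_le s).trans hL
  have h3 := evaln_sound (show v ∈ _ from hv)
  rw [hc] at h3
  have h4 : v = if X x then 1 else 0 := by simpa [chi] using hF.sound _ _ _ h3
  rw [← h4]
  refine univ_eq hc hF.mono (l := s.unpair.1) (by simpa using hl) ?_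
  rw [seg_take _ hl, seg_length]
  exact evaln_mono hL hv

theorem delta_comm (X Y : ℕ → Bool) : delta X Y = delta Y X := by
  simp only [delta, Bool.xor_comm]

theorem delta_tri (X D C : ℕ → Bool) : delta D C ≤ delta X D + delta X C := by
  refine le_trans (limsup_le_limsup (Eventually.of_forall (ratio_triangle X D C)) (ratio_cobdd _)
    (isBoundedUnder_of ⟨2, fun n => ?_⟩)) (limsup_add_le (isBoundedUnder_of ⟨0, ratio_nonneg _⟩)
      (ratio_bdd _) (ratio_cobdd _) (ratio_bdd _))
  linarith [ratio_le_one (fun i => xor (X i) (D i)) n, ratio_le_one (fun i => xor (X i) (C i)) n]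

theorem delta_not (C : ℕ → Bool) : 1 ≤ delta C fun i => !C i := by
  refine le_limsup_of_frequently_le (Eventually.frequently ?_) (ratio_bdd _)
  filter_upwards [eventually_gt_atTop 0] with n hn
  have : (0 : ℝ) < n := by exact_mod_cast hn
  simp [div_self this.ne']

theorem delta_small {X Y : ℕ → Bool} {N K : ℕ} (h : ∀ i, N ≤ i → ¬ K ∣ i + 1 → X i = Y i) :
    delta X Y ≤ 1 / K := by
  have h1 : Tendsto (fun n : ℕ => (N : ℝ) / n + 1 / K) atTop (𝓝 (0 + 1 / K)) :=
    (tendsto_const_div_atTop_nhds_zero_nat _).add_const _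
  rw [zero_add] at h1
  rw [← h1.limsup_eq]
  refine limsup_le_limsup ?_ (ratio_cobdd _) h1.isBoundedUnder_le
  filter_upwards [eventually_gt_atTop 0] with n hn
  have n0 : (0 : ℝ) < n := by exact_mod_cast hn
  have s : ((Finset.range n).filter fun i => xor (X i) (Y i) = true) ⊆
      Finset.range N ∪ (Finset.range n).filter fun i => K ∣ i + 1 := fun i hi => by
    rw [Finset.mem_filter] at hi
    by_contra hc
    simp only [Finset.mem_union, Finset.mem_filter, not_or, not_and, Finset.mem_range] at hc hi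
    simp [h i (not_lt.1 hc.1) (hc.2 hi.1)] at hi
  have c := (Finset.card_le_card s).trans (Finset.card_union_le _ _)
  rw [Finset.card_range, Nat.card_multiples] at c
  have c2 : (((Finset.range n).filter fun i => xor (X i) (Y i) = true).card : ℝ) ≤ N + n / K :=
    (Nat.cast_le.2 c).trans (by rw [Nat.cast_add]; exact add_le_add_right Nat.cast_div_le _)
  refine (div_le_div_of_nonneg_right c2 n0.le).trans_eq ?_
  rw [add_div, div_right_comm, div_self n0.ne']

theorem exists_code_in {A Y : ℕ → Bool} (hY : ComputableIn {chi A} Y) (K : ℕ) :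
    ∃ Y', TuringEquivalent (chi Y') (chi A) ∧ ∀ i, ¬ K + 1 ∣ i + 1 → Y i = Y' i := by
  have p1 : Primrec fun q : ℕ × Bool × Bool => if q.1 % (K + 1) = K then q.2.1 else q.2.2 :=
    Primrec.ite (Primrec.eq.comp (Primrec.nat_mod.comp Primrec.fst (Primrec.const _))
      (Primrec.const _)) (Primrec.fst.comp Primrec.snd) (Primrec.snd.comp Primrec.snd)
  have p2 := ci_comp p1.computableIn (ci_pair ComputableIn.id (ci_pair (ci_comp (ci_self A)
    (Primrec.nat_div.comp Primrec.id (Primrec.const (K + 1))).computableIn) hY))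
  refine ⟨fun i => if i % (K + 1) = K then A (i / (K + 1)) else Y i, ⟨tr_of_ci p2,
    tr_of_ci (ci_of_eq (ci_comp (ci_self _) (Primrec.nat_add.comp (Primrec.const K)
      (Primrec.nat_mul.comp (Primrec.const (K + 1)) Primrec.id)).computableIn) fun j => ?_)⟩,
    fun i hi => (if_neg fun e => hi ?_).symm⟩
  · simp [Nat.add_mul_div_left, Nat.div_eq_of_lt]
  · exact ⟨i / (K + 1) + 1, by have := Nat.div_add_mod i (K + 1); rw [mul_add]; omega⟩

theorem hausdorff_eq {A B : ℕ → Bool} (h1 : ∀ C, ComputableIn {chi A} C → delta B C ≤ 1 / 2)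
    (h2 : ∀ X, TuringReducible (chi X) (chi B) → ∀ ε : ℝ, 0 < ε →
      ∃ Y, ComputableIn {chi A} Y ∧ delta X Y ≤ 1 / 2 + ε) : hausdorff A B = 1 / 2 := by
  have nA : Nonempty (degClosure A) := ⟨⟨A, mem_degClosure (TuringEquivalent.refl _)⟩⟩
  have hB : B ∈ degClosure B := mem_degClosure (TuringEquivalent.refl _)
  have nB : Nonempty (degClosure B) := ⟨⟨B, hB⟩⟩
  have k2 : ∀ y : degClosure B, ⨅ x : degClosure A, delta x y ≤ 1 / 2 := by
    rintro ⟨y, hy⟩
    refine le_of_forall_pos_le_add fun ε hε => ?_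
    obtain ⟨X, hX, d1⟩ := hy (ε / 3) (by positivity)
    obtain ⟨Y, hY, d2⟩ := h2 X hX.1 (ε / 3) (by positivity)
    obtain ⟨K, hK⟩ := exists_nat_one_div_lt (show 0 < ε / 3 by positivity)
    obtain ⟨Y', hY', e⟩ := exists_code_in hY K
    have d3 := delta_small (N := 0) fun i _ => e i
    refine (ciInf_le ⟨0, by rintro _ ⟨z, rfl⟩; exact delta_nonneg _ _⟩
      (⟨Y', mem_degClosure hY'⟩ : degClosure A)).trans ?_
    have t1 := delta_tri Y Y' y
    have t2 := delta_tri X Y y
    rw [delta_comm X y] at t2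
    push_cast at d3
    change delta Y' y ≤ _
    linarith
  refine le_antisymm (max_le (ciSup_le ?_) (ciSup_le k2)) (le_max_of_le_right ?_)
  · rintro ⟨x, hx⟩
    refine le_of_forall_pos_le_add fun ε hε => ?_
    obtain ⟨C, hC, d⟩ := hx ε hε
    refine (ciInf_le ⟨0, by rintro _ ⟨z, rfl⟩; exact delta_nonneg _ _⟩
      (⟨B, hB⟩ : degClosure B)).trans ?_
    have t := delta_tri C x B
    rw [delta_comm C x, delta_comm C B] at t
    change delta x B ≤ _
    linarith [h1 C (ci_of_tr hC.1)]
  · refine le_trans (le_ciInf ?_) (le_ciSup (f := fun y : degClosure B =>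
      ⨅ x : degClosure A, delta x y) ⟨1 / 2, by rintro _ ⟨y, rfl⟩; exact k2 y⟩ ⟨B, hB⟩)
    rintro ⟨x, hx⟩
    refine le_of_forall_pos_le_add fun ε hε => ?_
    obtain ⟨C, hC, d⟩ := hx ε hε
    have t1 := delta_tri B C fun i => !C i
    have t2 := delta_tri x B C
    change _ ≤ delta x B + ε
    linarith [delta_not C, h1 _ (ci_comp Primrec.not.computableIn (ci_of_tr hC.1))]

theorem countable_bool (A : ℕ → Bool) : {C : ℕ → Bool | ComputableIn {chi A} C}.Countable := by
  refine Set.MapsTo.countable_of_injOn (f := fun C n => if C n then 1 else 0)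
    (fun C hC => ?_) (fun C _ D _ e => funext fun n => ?_) (countable_computableIn A)
  · exact ci_comp (f := fun b : Bool => if b then 1 else 0) (Primrec.dom_bool _).computableIn hC
  · have := congrFun e n
    cases hc : C n <;> cases hd : D n <;> simp_all

theorem ae_hausdorff (A : ℕ → Bool) : ∀ᵐ B ∂coin, (∀ t : ℕ → ℕ, ComputableIn {chi B} t →
    ∃ f : ℕ → ℕ, ComputableIn {chi A} f ∧ ∀ᶠ n in atTop, t n ≤ f n) → hausdorff A B = 1 / 2 := by
  have hp : ∀ c : Code, Primrec₂ fun (i : ℕ) (σ : List Bool) => decide (univ c i σ = some 1) :=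
    fun c => (Primrec.eq.decide.comp (prim_univ.comp ((Primrec.const c).pair Primrec.id))
      (Primrec.const (some 1))).to₂
  have a1 := (ae_ball_iff (countable_bool A)).2 fun C _ =>
    ae_all_iff.2 fun k : ℕ => ae_close C (Nat.one_div_pos_of_nat (n := k))
  have a2 := ae_all_iff.2 fun c : Code => (ae_ball_iff (countable_computableIn A)).2 fun g hg =>
    ae_all_iff.2 fun k : ℕ => ae_greedy (hp c) hg (Nat.one_div_pos_of_nat (n := k))
  filter_upwards [a1, a2] with B b1 b2 hB
  refine hausdorff_eq (fun C hC => le_of_forall_pos_le_add fun ε hε => ?_) fun X hX ε hε => ?_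
  · obtain ⟨k, hk⟩ := exists_nat_one_div_lt hε
    linarith [b1 C hC k]
  obtain ⟨k, hk⟩ := exists_nat_one_div_lt (half_pos hε)
  obtain ⟨c, t, ht, hc⟩ := exists_time hX
  obtain ⟨g, hg, hd⟩ := hB t ht
  obtain ⟨N, hN⟩ := eventually_atTop.1 hd
  obtain ⟨Y, hY, d⟩ := b2 c g hg k
  refine ⟨Y, hY, ?_⟩
  have d2 := delta_small (X := fun i => decide (univ c i (seg B (len g (i + 1))) = some 1))
    (Y := X) (N := N) (K := k + 1) fun i hi _ => by
      rw [hc i _ ((hN i hi).trans (by simp [len, Finset.sum_range_succ]))]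
      cases X i <;> simp
  have t1 := delta_tri (fun i => decide (univ c i (seg B (len g (i + 1))) = some 1)) X Y
  push_cast at d2
  linarith

theorem attractive_of_dom {A : ℕ → Bool} (h : AEDominating A) : Attractive A :=
  le_antisymm prob_le_one (h.ge.trans (measure_mono_ae (ae_hausdorff A)))

theorem dom_of_attractive {A W : ℕ → Bool} (hW : REPred fun n => W n = true)
    (hWA : TuringEquivalent (chi W) (chi A)) (hA : Attractive A) : AEDominating A := by
  obtain ⟨a, ha⟩ := approx_of_re hW
  refine le_antisymm prob_le_one (hA.ge.trans (measure_mono fun B hB t ht => ?_))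
  have e : hausdorff W B = 1 / 2 := by
    have : hausdorff A B = 1 / 2 := hB
    unfold hausdorff at this ⊢
    rwa [degClosure_congr hWA]
  by_contra hc
  refine (hausdorff_gt_of_escape ha ht fun f hf => ?_).ne' e
  by_contra k
  push Not at k
  exact hc ⟨f, RecursiveIn.subst hf (by simpa using hWA.1), Eventually.of_forall k⟩

end Pool.Agent.P.MP_ef7593_lc
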