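import Mathlib
import Pool.Agent.P.MP_ef7593_lc.Jump

/-! If `B` computes a function that escapes every `A`-computable bound, `A` being c.e., then the
degrees of `A` and `B` are at distance more than one half. -/

set_option autoImplicit false
set_option backward.isDefEq.respectTransparency false
open Encodable Filter Denumerable
open Nat.Partrec (Code)
open Nat.Partrec.Code

namespace Pool.Agent.P.MP_ef7593_lc

/-- The proportion of elements below `n`. -/
noncomputable def ratio (X : ℕ → Bool) (n : ℕ) : ℝ :=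
  (((Finset.range n).filter fun i => X i = true).card : ℝ) / n

theorem ratio_nonneg (X : ℕ → Bool) (n : ℕ) : 0 ≤ ratio X n := by
  unfold ratio; positivity

theorem ratio_le_one (X : ℕ → Bool) (n : ℕ) : ratio X n ≤ 1 := by
  unfold ratio
  refine div_le_one_of_le₀ ?_ (Nat.cast_nonneg _)
  have := Finset.card_filter_le (Finset.range n) fun i => X i = true
  rw [Finset.card_range] at this
  exact_mod_cast this

theorem ratio_bdd (X : ℕ → Bool) : IsBoundedUnder (· ≤ ·) atTop (ratio X) :=
  isBoundedUnder_of ⟨1, ratio_le_one X⟩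

theorem ratio_cobdd (X : ℕ → Bool) : IsCoboundedUnder (· ≤ ·) atTop (ratio X) :=
  isCoboundedUnder_le_of_le atTop (ratio_nonneg X)

theorem delta_eq (X Y : ℕ → Bool) :
    delta X Y = limsup (ratio fun i => xor (X i) (Y i)) atTop := rfl

theorem delta_le_one (X Y : ℕ → Bool) : delta X Y ≤ 1 :=
  limsup_le_of_le (ratio_cobdd _) (Eventually.of_forall (ratio_le_one _))

theorem delta_nonneg (X Y : ℕ → Bool) : 0 ≤ delta X Y :=
  le_limsup_of_frequently_le (Frequently.of_forall (ratio_nonneg _)) (ratio_bdd _)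

theorem delta_self (X : ℕ → Bool) : delta X X = 0 := by
  have : (ratio fun i => xor (X i) (X i)) = fun _ => 0 := by
    ext n; simp [ratio]
  rw [delta_eq, this, limsup_const]

theorem mem_degClosure {A C : ℕ → Bool} (h : TuringEquivalent (chi C) (chi A)) :
    C ∈ degClosure A := fun ε hε => ⟨C, h, by rwa [delta_self]⟩

theorem ratio_triangle (X D C : ℕ → Bool) (n : ℕ) :
    ratio (fun i => xor (D i) (C i)) n ≤
      ratio (fun i => xor (X i) (D i)) n + ratio (fun i => xor (X i) (C i)) n := by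
  unfold ratio
  rw [← add_div]
  refine div_le_div_of_nonneg_right ?_ (Nat.cast_nonneg _)
  have : ((Finset.range n).filter fun i => xor (D i) (C i) = true) ⊆
      ((Finset.range n).filter fun i => xor (X i) (D i) = true) ∪
        ((Finset.range n).filter fun i => xor (X i) (C i) = true) := by
    intro i hi
    simp only [Finset.mem_union, Finset.mem_filter] at hi ⊢
    obtain ⟨h1, h2⟩ := hi
    revert h2
    cases X i <;> cases D i <;> cases C i <;> simp [h1]
  exact_mod_cast (Finset.card_le_card this).trans (Finset.card_union_le _ _)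

theorem ratio_block {Z : ℕ → Bool} {m : ℕ} (hm : 1 ≤ m)
    (h : ∀ x, 4 ^ m < x → x < 4 ^ (m + 1) → Z x = true) : 11 / 16 ≤ ratio Z (4 ^ (m + 1)) := by
  unfold ratio
  have h1 : Finset.Ioo (4 ^ m) (4 ^ (m + 1)) ⊆
      (Finset.range (4 ^ (m + 1))).filter fun i => Z i = true := by
    intro x hx
    rw [Finset.mem_Ioo] at hx
    exact Finset.mem_filter.2 ⟨Finset.mem_range.2 hx.2, h x hx.1 hx.2⟩
  have h2 := Finset.card_le_card h1
  rw [Nat.card_Ioo] at h2
  have h3 : 4 ≤ 4 ^ m := by
    calc 4 = 4 ^ 1 := rfl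
      _ ≤ 4 ^ m := Nat.pow_le_pow_right (by norm_num) hm
  rw [le_div_iff₀ (by positivity)]
  have h4 : 11 * 4 ^ (m + 1) ≤
      16 * ((Finset.range (4 ^ (m + 1))).filter fun i => Z i = true).card := by
    rw [pow_succ] at h2 ⊢
    omega
  have h5 : (11 : ℝ) * ((4 ^ (m + 1) : ℕ) : ℝ) ≤
      16 * (((Finset.range (4 ^ (m + 1))).filter fun i => Z i = true).card : ℝ) := by
    exact_mod_cast h4
  linarith

theorem hausdorff_gt {A B C : ℕ → Bool} (hC : TuringEquivalent (chi C) (chi B))
    (h : ∀ D, TuringEquivalent (chi D) (chi A) → ∀ M, ∃ m, M ≤ m ∧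
      ∀ x, 4 ^ m < x → x < 4 ^ (m + 1) → xor (D x) (C x) = true) :
    1 / 2 < hausdorff A B := by
  have hne : Nonempty (degClosure A) := ⟨⟨A, mem_degClosure (TuringEquivalent.refl _)⟩⟩
  have h1 : ∀ x : degClosure A, 5 / 8 ≤ delta x C := by
    rintro ⟨X, hX⟩
    obtain ⟨D, hD, hXD⟩ := hX (1 / 16) (by norm_num)
    have e1 := eventually_lt_of_limsup_lt hXD (ratio_bdd _)
    obtain ⟨N, hN⟩ := eventually_atTop.1 e1
    refine le_limsup_of_frequently_le (frequently_atTop.2 fun M => ?_) (ratio_bdd _)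
    obtain ⟨m, hm, hb⟩ := h D hD (M + N + 1)
    have h4 : m + 1 < 4 ^ (m + 1) := Nat.lt_pow_self (by norm_num)
    refine ⟨4 ^ (m + 1), by omega, ?_⟩
    have k1 := ratio_block (Z := fun i => xor (D i) (C i)) (by omega) hb
    have k2 := ratio_triangle X D C (4 ^ (m + 1))
    have k3 : ratio (fun i => xor (X i) (D i)) (4 ^ (m + 1)) < 1 / 16 := hN _ (by omega)
    change 5 / 8 ≤ ratio (fun i => xor (X i) (C i)) (4 ^ (m + 1))
    linarith
  have h2 : (5 / 8 : ℝ) ≤ ⨅ x : degClosure A, delta x C := le_ciInf h1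
  have h3 : (⨅ x : degClosure A, delta x C) ≤
      ⨆ y : degClosure B, ⨅ x : degClosure A, delta x y := by
    refine le_ciSup (f := fun y : degClosure B => ⨅ x : degClosure A, delta x y) ⟨1, ?_⟩
      ⟨C, mem_degClosure hC⟩
    rintro _ ⟨y, rfl⟩
    obtain ⟨x⟩ := hne
    exact (ciInf_le ⟨0, by rintro _ ⟨z, rfl⟩; exact delta_nonneg _ _⟩ x).trans (delta_le_one _ _)
  have h4 := le_max_right (⨆ x : degClosure A, ⨅ y : degClosure B, delta x y)
    (⨆ y : degClosure B, ⨅ x : degClosure A, delta x y)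
  unfold hausdorff
  linarith

/-- Logarithm in base four. -/
def lg (x : ℕ) : ℕ := Nat.findGreatest (fun m => 4 ^ m ≤ x) x

theorem prim_pow4 : Primrec fun m : ℕ => 4 ^ m :=
  (Primrec₂.unpaired'.1 Nat.Primrec.pow).comp (Primrec.const 4) Primrec.id

theorem prim_lg : Primrec lg :=
  Primrec.nat_findGreatest (p := fun x m => 4 ^ m ≤ x) Primrec.id
    (Primrec.nat_le.comp (prim_pow4.comp Primrec.snd) Primrec.fst)

theorem lg_eq {m x : ℕ} (h1 : 4 ^ m ≤ x) (h2 : x < 4 ^ (m + 1)) : lg x = m := by
  have h3 : m < 4 ^ m := Nat.lt_pow_self (by norm_num)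
  refine Nat.findGreatest_eq_iff.2 ⟨by omega, fun _ => h1, fun n hn _ h => ?_⟩
  have : 4 ^ (m + 1) ≤ 4 ^ n := Nat.pow_le_pow_right (by norm_num) hn
  omega

/-- Step-bounded evaluation of a functional on the initial segments of `τ`. -/
def univ (c : Code) (x : ℕ) (τ : List Bool) : Option ℕ :=
  ((List.range (τ.length + 1)).filterMap fun l =>
    evaln τ.length c (Nat.pair x (encode (τ.take l)))).head?

theorem prim_univ : Primrec fun q : Code × ℕ × List Bool => univ q.1 q.2.1 q.2.2 := by
  have h1 : Primrec fun q : Code × ℕ × List Bool => q.2.2.length :=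
    Primrec.list_length.comp (Primrec.snd.comp Primrec.snd)
  have h2 : Primrec fun r : (Code × ℕ × List Bool) × ℕ =>
      evaln r.1.2.2.length r.1.1 (Nat.pair r.1.2.1 (encode (r.1.2.2.take r.2))) :=
    primrec_evaln.comp (((h1.comp Primrec.fst).pair (Primrec.fst.comp Primrec.fst)).pair
      (Primrec₂.natPair.comp (Primrec.fst.comp (Primrec.snd.comp Primrec.fst))
        (Primrec.encode.comp (Primrec.list_take.comp Primrec.snd
          (Primrec.snd.comp (Primrec.snd.comp Primrec.fst))))))
  exact Primrec.list_head?.comp (Primrec.listFilterMap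
    (Primrec.list_range.comp (Primrec.succ.comp h1)) h2.to₂)

theorem univ_eq {c : Code} {F : ℕ → List Bool →. ℕ}
    (hc : ∀ x σ, c.eval (Nat.pair x (encode σ)) = F x σ)
    (hmono : ∀ x σ τ v, σ <+: τ → v ∈ F x σ → v ∈ F x τ) {x l v : ℕ} {τ : List Bool}
    (hl : l ≤ τ.length) (h : v ∈ evaln τ.length c (Nat.pair x (encode (τ.take l)))) :
    univ c x τ = some v := by
  unfold univ
  have key : ∀ w ∈ (List.range (τ.length + 1)).filterMap fun l =>
      evaln τ.length c (Nat.pair x (encode (τ.take l))), w = v := by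
    intro w hw
    obtain ⟨l', -, hw⟩ := List.mem_filterMap.1 hw
    have h1 := evaln_sound h
    have h2 := evaln_sound (show w ∈ _ from hw)
    rw [hc] at h1 h2
    exact Part.mem_unique (hmono _ _ _ _ (List.take_prefix _ _) h2)
      (hmono _ _ _ _ (List.take_prefix _ _) h1)
  have hv : v ∈ (List.range (τ.length + 1)).filterMap fun l =>
      evaln τ.length c (Nat.pair x (encode (τ.take l))) :=
    List.mem_filterMap.2 ⟨l, List.mem_range.2 (by omega), h⟩
  generalize ((List.range (τ.length + 1)).filterMap fun l =>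
      evaln τ.length c (Nat.pair x (encode (τ.take l)))) = L at key hv
  cases L with
  | nil => simp at hv
  | cons w L => simp [key w (by simp)]

/-- Settling times: a set computable from the c.e. set `A` has an `A`-computable modulus. -/
theorem exists_modulus {A D : ℕ → Bool} {a : ℕ → ℕ → Bool} (ha : Approx A a)
    (hD : TuringReducible (chi D) (chi A)) :
    ∃ (c : Code) (g : ℕ → ℕ), ComputableIn {chi A} g ∧ ∀ b t x, g b ≤ t → x < b →
      univ c x (seg (a t) t) = some (if D x then 1 else 0) := by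
  classical
  obtain ⟨F, hF⟩ := exists_use hD
  obtain ⟨c, hc⟩ := hF.exists_code
  have p0 : PrimrecRel fun (x : ℕ) (q : (ℕ × ℕ) × List Bool) =>
      (evaln q.1.2 c (Nat.pair x (encode q.2))).isSome = true :=
    Primrec.eq.comp (Primrec.option_isSome.comp (primrec_evaln.comp
      (((Primrec.snd.comp (Primrec.fst.comp Primrec.snd)).pair (Primrec.const c)).pair
        (Primrec₂.natPair.comp Primrec.fst
          (Primrec.encode.comp (Primrec.snd.comp Primrec.snd)))))) (Primrec.const true)
  have p1 : PrimrecPred fun q : (ℕ × ℕ) × List Bool =>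
      seg (a q.1.2) q.1.2.unpair.1 = q.2 ∧
      ∀ x ∈ List.range q.1.1, (evaln q.1.2 c (Nat.pair x (encode q.2))).isSome = true :=
    (Primrec.eq.comp (ha.prim_seg.comp (Primrec.snd.comp Primrec.fst)
      (Primrec.fst.comp (Primrec.unpair.comp (Primrec.snd.comp Primrec.fst)))) Primrec.snd).and
      (p0.forall_mem_list.comp (Primrec.list_range.comp (Primrec.fst.comp Primrec.fst))
        Primrec.id)
  obtain ⟨inst, p1⟩ := p1
  have p2 := ci_comp p1.computableIn (ci_pair ComputableIn.id (ci_comp (ci_seg (ci_self A))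
    (Primrec.fst.comp (Primrec.unpair.comp Primrec.snd)).computableIn))
  let p : ℕ → ℕ → Bool := fun b s => @decide _ (inst ((b, s), seg A s.unpair.1))
  have hp : ∀ b s, p b s = true ↔ seg (a s) s.unpair.1 = seg A s.unpair.1 ∧
      ∀ x < b, (evaln s c (Nat.pair x (encode (seg A s.unpair.1)))).isSome = true := by
    intro b s
    simp only [p, decide_eq_true_eq, List.mem_range]
  have hex : ∀ b, ∃ s, p b s = true := by
    intro b
    have e1 : ∀ x ∈ Set.Iio b, ∀ᶠ l in atTop, (if D x then 1 else 0) ∈ F x (seg A l) :=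
      fun x _ => hF.complete _ _ (by simp [chi])
    obtain ⟨l, hl⟩ := ((eventually_all_finite (Set.finite_Iio b)).2 e1).exists
    have e2 : ∀ x ∈ Set.Iio b, ∀ᶠ s in atTop,
        (evaln s c (Nat.pair x (encode (seg A l)))).isSome = true := by
      intro x hx
      have h1 := hl x hx
      rw [← hc] at h1
      obtain ⟨k, hk⟩ := (dom_iff_evaln _ _).1 (Part.dom_iff_mem.2 ⟨_, h1⟩)
      filter_upwards [eventually_ge_atTop k] with s hs using isSome_evaln_mono hs hk
    obtain ⟨k, hk⟩ := eventually_atTop.1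
      (((eventually_all_finite (Set.finite_Iio b)).2 e2).and (ha.eventually l))
    obtain ⟨s, hs, rfl⟩ := exists_unpair_ge l k
    exact ⟨s, (hp b s).2 ⟨(hk s hs).2, (hk s hs).1⟩⟩
  refine ⟨c, fun b => Nat.find (hex b), ci_find (p := p) p2 hex, fun b t x ht hx => ?_⟩
  obtain ⟨h1, h2⟩ := (hp _ _).1 (Nat.find_spec (hex b))
  set s := Nat.find (hex b)
  obtain ⟨v, hv⟩ := Option.isSome_iff_exists.1 (h2 x hx)
  have hl : s.unpair.1 ≤ t := (Nat.unpair_left_le s).trans ht
  have h3 := evaln_sound (show v ∈ _ from hv)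
  rw [hc] at h3
  have h4 : v = if D x then 1 else 0 := by simpa [chi] using hF.sound _ _ _ h3
  rw [← h4]
  refine univ_eq hc hF.mono (l := s.unpair.1) (by simpa using hl) ?_
  rw [seg_take _ hl, ha.persist ht h1, seg_length]
  exact evaln_mono ht hv

theorem hausdorff_gt_of_escape {A B : ℕ → Bool} {a : ℕ → ℕ → Bool} (ha : Approx A a)
    {t : ℕ → ℕ} (ht : ComputableIn {chi B} t)
    (hesc : ∀ f : ℕ → ℕ, ComputableIn {chi A} f → ∃ n, f n < t n) :
    1 / 2 < hausdorff A B := by
  have hesc' : ∀ f : ℕ → ℕ, ComputableIn {chi A} f → ∀ N, ∃ n, N ≤ n ∧ f n ≤ t n := by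
    intro f hf N
    have h1 := ci_comp (Primrec.nat_add.comp Primrec.id
      (Primrec.const (∑ i ∈ Finset.range N, t i))).computableIn hf
    obtain ⟨n, hn⟩ := hesc _ h1
    simp only [id] at hn
    refine ⟨n, ?_, by omega⟩
    by_contra hh
    have := Finset.single_le_sum (f := t) (fun i _ => Nat.zero_le _)
      (Finset.mem_range.2 (not_le.1 hh))
    omega
  have u1 : Primrec fun q : ℕ × Bool × ℕ => q.2.2 := Primrec.snd.comp Primrec.snd
  have p1 : Primrec fun q : ℕ × Bool × ℕ => if q.1 = 4 ^ lg q.1 then q.2.1 else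
      !decide (univ (ofNat Code (lg q.1).unpair.1) q.1 (seg (a q.2.2) q.2.2) = some 1) :=
    Primrec.ite (Primrec.eq.comp Primrec.fst (prim_pow4.comp (prim_lg.comp Primrec.fst)))
      (Primrec.fst.comp Primrec.snd)
      (Primrec.not.comp (Primrec.eq.decide.comp (prim_univ.comp
        (((Primrec.ofNat Code).comp (Primrec.fst.comp
          (Primrec.unpair.comp (prim_lg.comp Primrec.fst)))).pair
          (Primrec.fst.pair (ha.prim_seg.comp u1 u1)))) (Primrec.const (some 1))))
  let C : ℕ → Bool := fun x => if x = 4 ^ lg x then B (lg x) else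
      !decide (univ (ofNat Code (lg x).unpair.1) x
        (seg (a (t (lg x).unpair.2)) (t (lg x).unpair.2)) = some 1)
  have p2 := ci_comp p1.computableIn (ci_pair ComputableIn.id
    (ci_pair (ci_comp (ci_self B) prim_lg.computableIn)
      (ci_comp ht (Primrec.snd.comp (Primrec.unpair.comp prim_lg)).computableIn)))
  have hCB : TuringReducible (chi C) (chi B) := tr_of_ci p2
  have hBC : TuringReducible (chi B) (chi C) := by
    refine tr_of_ci (ci_of_eq (ci_comp (ci_self C) prim_pow4.computableIn) fun m => ?_)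
    have : lg (4 ^ m) = m := lg_eq le_rfl (Nat.pow_lt_pow_right (by norm_num) (by omega))
    simp only [C, this, if_true]
  refine hausdorff_gt (C := C) ⟨hCB, hBC⟩ fun D hD M => ?_
  obtain ⟨c, g, hg, hgD⟩ := exists_modulus ha hD.1
  have h1 := ci_comp hg (prim_pow4.comp (Primrec.succ.comp
    (Primrec₂.natPair.comp (Primrec.const (encode c)) Primrec.id))).computableIn
  obtain ⟨n, hn1, hn2⟩ := hesc' _ h1 M
  refine ⟨Nat.pair (encode c) n, hn1.trans (Nat.right_le_pair _ _), fun x hx1 hx2 => ?_⟩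
  have hlg : lg x = Nat.pair (encode c) n := lg_eq hx1.le hx2
  have h2 := hgD _ _ x hn2 hx2
  simp only [C, hlg, if_neg hx1.ne', Nat.unpair_pair, ofNat_encode, h2]
  cases D x <;> simp

theorem countable_computableIn (A : ℕ → Bool) :
    {f : ℕ → ℕ | ComputableIn {chi A} f}.Countable := by
  have : {f : ℕ → ℕ | ComputableIn {chi A} f} ⊆ ⋃ c : Code, {f : ℕ → ℕ | ∀ x,
      (∃ s, f x ∈ c.eval (Nat.pair x (encode (seg A s)))) ∧
      ∀ s v, v ∈ c.eval (Nat.pair x (encode (seg A s))) → v = f x} := by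
    intro f hf
    obtain ⟨F, hF⟩ := exists_use hf
    obtain ⟨c, hc⟩ := hF.exists_code
    refine Set.mem_iUnion.2 ⟨c, fun x => ?_⟩
    simp only [hc]
    exact ⟨(hF.complete x (f x) (by simp)).exists, fun s v hv => by simpa using hF.sound _ _ _ hv⟩
  refine (Set.countable_iUnion fun c => Set.Subsingleton.countable fun f hf g hg => ?_).mono this
  funext x
  obtain ⟨s, hs⟩ := (hf x).1
  exact (hg x).2 s _ hs

end Pool.Agent.P.MP_ef7593_lc
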