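import Mathlib
import Pool.Agent.P.MP_ef7593_lc.Escape
import Pool.Agent.P.MP_ef7593_lc.Coin

/-! Tools: cylinders, binary digits, monotone functionals. -/

set_option autoImplicit false
set_option backward.isDefEq.respectTransparency false
open Encodable Filter Denumerable MeasureTheory
open Nat.Partrec (Code)
open Nat.Partrec.Code
open scoped ENNReal

namespace Pool.Agent.P.MP_ef7593_lc.Dn

/-! ### cylinders -/

theorem seg_set (X : ℕ → Bool) (s : ℕ) :
    {B | seg B s = seg X s} = Set.pi (Finset.range s : Finset ℕ) fun i => {X i} := by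
  ext B; simp [seg_eq_iff]

theorem meas_cyl (X : ℕ → Bool) (s : ℕ) : MeasurableSet {B | seg B s = seg X s} := by
  rw [seg_set]
  exact MeasurableSet.pi (Finset.countable_toSet _) fun _ _ => measurableSet_singleton _

theorem coin_seg (X : ℕ → Bool) (s : ℕ) : coin {B | seg B s = seg X s} = 2⁻¹ ^ s := by
  rw [seg_set]
  unfold coin
  rw [Measure.infinitePi_pi _ fun _ _ => measurableSet_singleton _]
  simp

theorem exists_bits (X : ℕ → Bool) (s : ℕ) : ∃ k < 2 ^ s, seg X s = seg k.testBit s := by
  refine ⟨Nat.ofBits fun i : Fin s => X i, Nat.ofBits_lt_two_pow _, ?_⟩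
  rw [seg_eq_iff]
  intro i hi
  rw [Nat.testBit_ofBits_lt _ _ hi]

theorem bits_inj {s k k' : ℕ} (h : k < 2 ^ s) (h' : k' < 2 ^ s)
    (e : seg k.testBit s = seg k'.testBit s) : k = k' := by
  refine Nat.eq_of_testBit_eq fun i => ?_
  by_cases hi : i < s
  · exact seg_eq_iff.1 e i hi
  · have : 2 ^ s ≤ 2 ^ i := Nat.pow_le_pow_right two_pos (not_lt.1 hi)
    rw [Nat.testBit_lt_two_pow (h.trans_le this), Nat.testBit_lt_two_pow (h'.trans_le this)]

theorem seg_pred_eq (φ : List Bool → Prop) [DecidablePred φ] (s : ℕ) :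
    {B | φ (seg B s)} = ⋃ k ∈ (Finset.range (2 ^ s)).filter fun k => φ (seg k.testBit s),
      {B | seg B s = seg k.testBit s} := by
  ext B
  simp only [Set.mem_ofPred_eq, Set.mem_iUnion, Finset.mem_filter, Finset.mem_range]
  constructor
  · intro h
    obtain ⟨k, hk, e⟩ := exists_bits B s
    exact ⟨k, ⟨hk, e ▸ h⟩, e⟩
  · rintro ⟨k, ⟨-, h⟩, e⟩
    exact e ▸ h

theorem meas_seg (φ : List Bool → Prop) (s : ℕ) : Measurable fun B : ℕ → Bool => φ (seg B s) := by
  classical
  rw [← measurableSet_setOfPred, seg_pred_eq]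
  exact Finset.measurableSet_biUnion _ fun _ _ => meas_cyl _ _

theorem coin_pred (φ : List Bool → Prop) [DecidablePred φ] (s : ℕ) :
    coin {B | φ (seg B s)} =
      ((Finset.range (2 ^ s)).filter fun k => φ (seg k.testBit s)).card * 2⁻¹ ^ s := by
  rw [seg_pred_eq, measure_biUnion_finset _ fun _ _ => meas_cyl _ _]
  · simp only [coin_seg, Finset.sum_const, nsmul_eq_mul]
  · intro k hk k' hk' hne
    refine Set.disjoint_left.2 fun B h h' => hne ?_
    simp only [Finset.coe_filter, Finset.mem_range, Set.mem_ofPred_eq] at hk hk' h h'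
    exact bits_inj hk.1 hk'.1 (h.symm.trans h')

/-- the first two columns -/
def two (B : ℕ → Bool) : (ℕ → Bool) × (ℕ → Bool) := (cols B 0, cols B 1)

theorem meas_col (n : ℕ) : Measurable fun B => cols B n :=
  (measurable_pi_apply n).comp measurable_cols

theorem meas_two : Measurable two := (meas_col 0).prodMk (meas_col 1)

theorem map_two : coin.map two = coin.prod coin := by
  rw [← Measure.infinitePi_map_eval_prod (P := fun _ : ℕ => coin) (i := 0) (j := 1) zero_ne_one,
    ← map_cols, Measure.map_map (by fun_prop) measurable_cols]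
  rfl

theorem coin_two {s t : Set (ℕ → Bool)} (hs : MeasurableSet s) (ht : MeasurableSet t) :
    coin {B | cols B 0 ∈ s ∧ cols B 1 ∈ t} = coin s * coin t := by
  rw [← Measure.prod_prod, ← map_two, Measure.map_apply meas_two (hs.prod ht)]
  rfl

theorem coin_col (n : ℕ) {s : Set (ℕ → Bool)} (hs : MeasurableSet s) :
    coin {B | cols B n ∈ s} = coin s := by
  have := coin_pi {n} hs
  simpa using this

/-- the second lemma of Borel and Cantelli for the columns -/
theorem ae_frequently {G : ℕ → Set (ℕ → Bool)} (hG : ∀ m, MeasurableSet (G m))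
    (h : ∑' m, coin (G m) = ∞) : ∀ᵐ B ∂coin, ∃ᶠ m in atTop, cols B m ∈ G m := by
  have hm : ∀ m, MeasurableSet {ω : ℕ → ℕ → Bool | ω m ∈ G m} := fun m =>
    measurable_pi_apply m (hG m)
  have h1 : ProbabilityTheory.iIndepSet (fun m => {ω : ℕ → ℕ → Bool | ω m ∈ G m})
      (Measure.infinitePi fun _ : ℕ => coin) := by
    rw [ProbabilityTheory.iIndepSet_iff_meas_biInter hm]
    intro S
    have := (ProbabilityTheory.iIndepFun_infinitePi (P := fun _ : ℕ => coin)
      (X := fun _ ω => ω) fun _ => measurable_id).meas_biInter (S := S)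
      (s := fun m => {ω : ℕ → ℕ → Bool | ω m ∈ G m}) fun m _ => ⟨G m, hG m, rfl⟩
    exact this
  have h2 : ∀ m, (Measure.infinitePi fun _ : ℕ => coin) {ω | ω m ∈ G m} = coin (G m) := by
    intro m
    rw [← map_cols, Measure.map_apply measurable_cols (hm m)]
    exact coin_col m (hG m)
  have h3 := ProbabilityTheory.measure_limsup_eq_one hm h1 (by simpa only [h2] using h)
  have h4 : MeasurableSet (limsup (fun m => {ω : ℕ → ℕ → Bool | ω m ∈ G m}) atTop) :=
    MeasurableSet.measurableSet_limsup hm
  rw [← map_cols, Measure.map_apply measurable_cols h4] at h3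
  have h5 := (prob_compl_eq_zero_iff (measurable_cols h4)).2 h3
  rw [ae_iff]
  refine measure_mono_null (fun B hB => ?_) h5
  simp only [Set.mem_ofPred_eq, Set.mem_compl_iff, Set.mem_preimage,
    mem_limsup_iff_frequently_mem] at hB ⊢
  exact hB

/-! ### primitive recursion -/

theorem prim_pow : Primrec₂ fun a b : ℕ => a ^ b := Primrec₂.unpaired'.1 Nat.Primrec.pow

theorem prim_testBit : Primrec₂ Nat.testBit := by
  have : Primrec₂ fun k i : ℕ => decide (k / 2 ^ i % 2 = 1) :=
    (Primrec.eq.decide.comp (Primrec.nat_mod.comp (Primrec.nat_div.comp Primrec.fst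
      (prim_pow.comp (Primrec.const 2) Primrec.snd)) (Primrec.const 2)) (Primrec.const 1)).to₂
  exact this.of_eq fun k i => by rw [Nat.testBit_eq_decide_div_mod_eq]

theorem prim_bits : Primrec₂ fun k s : ℕ => seg k.testBit s :=
  (Primrec.list_map (Primrec.list_range.comp Primrec.snd)
    (prim_testBit.comp (Primrec.fst.comp Primrec.fst) Primrec.snd).to₂).to₂

/-- the number of `i < n` with `R i b` -/
def cnt {β : Type} (R : ℕ → β → Prop) [DecidableRel R] (n : ℕ) (b : β) : ℕ :=
  ((List.range n).filter fun i => R i b).length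

theorem cnt_eq {β : Type} (R : ℕ → β → Prop) [DecidableRel R] (n : ℕ) (b : β) :
    cnt R n b = ((Finset.range n).filter fun i => R i b).card := by
  rw [cnt, ← List.toFinset_card_of_nodup (List.nodup_range.filter _)]
  congr 1
  ext i; simp

theorem prim_cnt {β : Type} [Primcodable β] {R : ℕ → β → Prop} [DecidableRel R]
    (h : PrimrecRel R) : Primrec₂ (cnt R) :=
  (Primrec.list_length.comp (h.listFilter.comp (Primrec.list_range.comp Primrec.fst)
    Primrec.snd)).to₂

theorem prim_forall {α β : Type} [Primcodable α] [Primcodable β] {R : ℕ → β → Prop}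
    (h : PrimrecRel R) {n : α → ℕ} {b : α → β} (hn : Primrec n) (hb : Primrec b) :
    PrimrecPred fun a => ∀ i < n a, R i (b a) :=
  (h.forall_mem_list.comp (Primrec.list_range.comp hn) hb).of_eq fun a => by simp

theorem getD_seg (X : ℕ → Bool) {i s : ℕ} (h : i < s) : (seg X s).getD i false = X i := by
  rw [List.getD_eq_getElem?_getD, seg_getElem? X h]; rfl

theorem ci_col (B : ℕ → Bool) {O : Set (ℕ →. ℕ)} (h : ComputableIn O B) (n : ℕ) :
    ComputableIn O (cols B n) :=
  ci_comp (f := B) (g := fun i => Nat.pair n i) h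
    (Primrec₂.natPair.comp (Primrec.const n) Primrec.id).computableIn

/-! ### monotone functionals -/

/-- the code `c` defines a monotone functional -/
def Mono (c : Code) : Prop := ∀ (x : ℕ) (σ τ : List Bool) (v : ℕ), σ <+: τ →
  v ∈ c.eval (Nat.pair x (encode σ)) → v ∈ c.eval (Nat.pair x (encode τ))

theorem univ_sound {c : Code} {x v : ℕ} {τ : List Bool} (h : univ c x τ = some v) :
    ∃ l ≤ τ.length, v ∈ evaln τ.length c (Nat.pair x (encode (τ.take l))) := by
  obtain ⟨l, hl, hv⟩ := List.mem_filterMap.1 (List.mem_of_mem_head? h)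
  exact ⟨l, Nat.lt_succ_iff.1 (List.mem_range.1 hl), hv⟩

theorem Mono.univ_mono {c : Code} (hc : Mono c) {x v s t : ℕ} {X : ℕ → Bool} (hst : s ≤ t)
    (h : univ c x (seg X s) = some v) : univ c x (seg X t) = some v := by
  obtain ⟨l, hl, hv⟩ := univ_sound h
  rw [seg_length] at hl hv
  refine univ_eq (F := fun x σ => c.eval (Nat.pair x (encode σ))) (fun _ _ => rfl) hc (l := l)
    (by rw [seg_length]; omega) ?_
  rw [seg_take _ hl] at hv
  rw [seg_take _ (hl.trans hst), seg_length]
  exact evaln_mono hst hv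

/-- a function recursive in `X` is given by a monotone code -/
theorem exists_mono {X : ℕ → Bool} {f : ℕ →. ℕ} (hf : RecursiveIn {chi X} f) :
    ∃ c, Mono c ∧ ∀ x v, v ∈ f x ↔ ∃ s, univ c x (seg X s) = some v := by
  obtain ⟨F, hF⟩ := exists_use hf
  obtain ⟨c, hc⟩ := hF.exists_code
  refine ⟨c, fun x σ τ v h => by simpa only [hc] using hF.mono x σ τ v h, fun x v => ⟨?_, ?_⟩⟩
  · intro hv
    obtain ⟨l, hl⟩ := (hF.complete x v hv).exists
    rw [← hc] at hl
    obtain ⟨k, hk⟩ := evaln_complete.1 hl
    refine ⟨max l k, univ_eq hc hF.mono (l := l) (by simp) ?_⟩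
    rw [seg_take _ (le_max_left _ _), seg_length]
    exact evaln_mono (le_max_right _ _) hk
  · rintro ⟨s, hs⟩
    obtain ⟨l, hl, hv⟩ := univ_sound hs
    rw [seg_length] at hl
    rw [seg_take _ hl] at hv
    have := evaln_sound hv
    rw [hc] at this
    exact hF.sound _ _ _ this

theorem countable_sets (A : ℕ → Bool) : {D : ℕ → Bool | ComputableIn {chi A} D}.Countable := by
  refine Set.MapsTo.countable_of_injOn (f := fun D n => if D n = true then 1 else 0)
    (fun D hD => ?_) (fun D _ D' _ e => ?_) (countable_computableIn A)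
  · exact tr_of_ci hD
  · funext n
    have := congrFun e n
    revert this
    cases D n <;> cases D' n <;> simp

end Pool.Agent.P.MP_ef7593_lc.Dn
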