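import Mathlib
import Pool.Agent.P.MP_ef7593_lc.DnA

/-! Codes with small lists. -/

set_option autoImplicit false
set_option backward.isDefEq.respectTransparency false
open Encodable Filter Denumerable MeasureTheory ProbabilityTheory
open scoped ENNReal

namespace Pool.Agent.P.MP_ef7593_lc.Dn

/-- sign of a bit -/
def sg (b : Bool) : ℝ := if b then 1 else -1

theorem sg_mul (a b : Bool) : sg a * sg b = if a = b then 1 else -1 := by
  cases a <;> cases b <;> simp [sg]

/-- correlation of two sequences below `l` -/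
noncomputable def ip (x y : ℕ → Bool) (l : ℕ) : ℝ := ∑ r ∈ Finset.range l, sg (x r) * sg (y r)

theorem ip_comm (x y : ℕ → Bool) (l : ℕ) : ip x y l = ip y x l := by
  simp [ip, mul_comm]

theorem ip_self (x : ℕ → Bool) (l : ℕ) : ip x x l = l := by simp [ip, sg_mul]

theorem ip_eq (x y : ℕ → Bool) (l : ℕ) :
    ip x y l = l - 2 * (Nat.count (fun r => xor (x r) (y r) = true) l : ℝ) := by
  induction l with
  | zero => simp [ip]
  | succ l ih =>
    unfold ip at ih ⊢
    rw [Finset.sum_range_succ, ih, Nat.count_succ, sg_mul]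
    cases x l <;> cases y l <;> simp <;> ring

theorem meas_ip (x : ℕ → Bool) (l : ℕ) : Measurable fun y => ip x y l := by
  unfold ip
  refine Finset.measurable_sum _ fun r _ => ?_
  exact (measurable_of_countable fun b => sg (x r) * sg b).comp (measurable_pi_apply r)

theorem tail (x : ℕ → Bool) (l : ℕ) {ε : ℝ} (hε : 0 ≤ ε) :
    coin.real {y | ε ≤ ip x y l} ≤ Real.exp (-ε ^ 2 / (2 * l)) := by
  have h1 : iIndepFun (fun r (y : ℕ → Bool) => sg (x r) * sg (y r)) coin :=
    iIndepFun_infinitePi (P := fun _ : ℕ => (PMF.uniformOfFintype Bool).toMeasure)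
      (X := fun r b => sg (x r) * sg b) fun r => measurable_of_countable _
  have h2 : ∀ r, HasSubgaussianMGF (fun y : ℕ → Bool => sg (x r) * sg (y r)) 1 coin := by
    intro r
    have hm : Measurable fun y : ℕ → Bool => sg (x r) * sg (y r) :=
      (measurable_of_countable fun b => sg (x r) * sg b).comp (measurable_pi_apply r)
    have := hasSubgaussianMGF_of_mem_Icc_of_integral_eq_zero (μ := coin) (a := -1) (b := 1)
      hm.aemeasurable (Eventually.of_forall fun y => by rw [sg_mul]; split_ifs <;> norm_num) ?_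
    · have e : ((‖(1 : ℝ) - -1‖₊ / 2) ^ 2 : NNReal) = 1 := by
        ext; norm_num
      rwa [e] at this
    · have e := integral_map (μ := coin) (φ := fun y : ℕ → Bool => y r)
        (measurable_pi_apply r).aemeasurable (f := fun b => sg (x r) * sg b)
        (measurable_of_countable _).aestronglyMeasurable
      rw [← e]
      unfold coin
      rw [Measure.infinitePi_map_eval, PMF.integral_eq_sum]
      simp [sg]
  simpa [ip] using HasSubgaussianMGF.measure_sum_range_ge_le_of_iIndepFun h1
    (n := l) (fun r _ => h2 r) hε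

/-- greedy construction of a code -/
theorem exists_code {l : ℕ} {ε : ℝ} (hε : 0 ≤ ε) (M : ℕ)
    (h : M * Real.exp (-ε ^ 2 / (2 * l)) < 1) :
    ∃ c : ℕ → ℕ → Bool, ∀ v < M, ∀ w < v, ip (c w) (c v) l < ε := by
  induction M with
  | zero => exact ⟨fun _ _ => false, by simp⟩
  | succ M ih =>
    have h0 : M * Real.exp (-ε ^ 2 / (2 * l)) < 1 := by
      refine lt_of_le_of_lt ?_ h
      gcongr; simp
    obtain ⟨c, hc⟩ := ih h0
    have h1 : coin.real (⋃ w ∈ Finset.range M, {y | ε ≤ ip (c w) y l}) < 1 := by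
      refine (measureReal_biUnion_finset_le _ _).trans_lt (lt_of_le_of_lt ?_ h0)
      refine (Finset.sum_le_sum fun w _ => tail (c w) l hε).trans ?_
      simp
    have h2 : ∃ y, y ∉ ⋃ w ∈ Finset.range M, {y | ε ≤ ip (c w) y l} := by
      by_contra hh
      push Not at hh
      rw [Set.eq_univ_of_forall hh] at h1
      simp at h1
    obtain ⟨y, hy⟩ := h2
    simp only [Set.mem_iUnion, Set.mem_ofPred_eq, not_exists, Finset.mem_range, not_le] at hy
    refine ⟨Function.update c M y, fun v hv w hw => ?_⟩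
    rw [Function.update_of_ne (by omega)]
    rcases Nat.lt_succ_iff_lt_or_eq.1 hv with hv | rfl
    · rw [Function.update_of_ne hv.ne]; exact hc v hv w hw
    · rw [Function.update_self]; exact hy w hw

/-- the bound of Johnson -/
theorem johnson {l : ℕ} (hl : 0 < l) {γ η : ℝ} (hγ : 0 ≤ γ) (hη : 0 ≤ η) (c : ℕ → ℕ → Bool)
    (d : ℕ → Bool) (L : Finset ℕ) (h : ∀ v ∈ L, ∀ w ∈ L, w < v → ip (c w) (c v) l ≤ γ * l)
    (hd : ∀ v ∈ L, ip (c v) d l ≤ -(η * l)) : L.card * (η ^ 2 - γ) ≤ 1 := by
  have hl' : (0 : ℝ) < l := by exact_mod_cast hl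
  rcases Nat.eq_zero_or_pos L.card with h0 | h0
  · simp [h0]
  have hs : (0 : ℝ) < L.card := by exact_mod_cast h0
  have e1 : ∑ r ∈ Finset.range l, (∑ v ∈ L, sg (c v r)) * sg (d r) ≤ -(L.card * (η * l)) := by
    simp only [Finset.sum_mul]
    rw [Finset.sum_comm]
    refine (Finset.sum_le_sum hd).trans ?_
    simp
  have e2 := Finset.sum_mul_sq_le_sq_mul_sq (Finset.range l) (fun r => ∑ v ∈ L, sg (c v r))
    fun r => sg (d r)
  have e3 : ∑ r ∈ Finset.range l, sg (d r) ^ 2 = l := by simp [sq, sg_mul]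
  have e4 : ∑ r ∈ Finset.range l, (∑ v ∈ L, sg (c v r)) ^ 2 ≤ L.card * (l + L.card * (γ * l)) := by
    simp only [sq, Finset.sum_mul_sum]
    rw [Finset.sum_comm, ← nsmul_eq_mul]
    refine Finset.sum_le_card_nsmul _ _ _ fun v hv => ?_
    rw [Finset.sum_comm]
    have : ∀ w ∈ L, ip (c v) (c w) l ≤ (if v = w then (l : ℝ) else 0) + γ * l := by
      intro w hw
      have : 0 ≤ γ * l := by positivity
      rcases lt_trichotomy v w with k | rfl | k
      · rw [if_neg k.ne, zero_add]; exact h w hw v hv k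
      · rw [ip_self, if_pos rfl]; linarith
      · rw [if_neg k.ne', zero_add, ip_comm]; exact h v hv w hw k
    refine (Finset.sum_le_sum this).trans ?_
    rw [Finset.sum_add_distrib, Finset.sum_ite_eq, if_pos hv]
    simp
  rw [e3] at e2
  have e5 : (L.card * (η * l)) ^ 2 ≤ L.card * (l + L.card * (γ * l)) * l := by
    have : 0 ≤ L.card * (η * l) := by positivity
    calc _ ≤ (∑ r ∈ Finset.range l, (∑ v ∈ L, sg (c v r)) * sg (d r)) ^ 2 := by nlinarith
      _ ≤ _ := e2.trans (by gcongr)
  have e6 : (L.card * l * l) * (L.card * (η ^ 2 - γ)) ≤ (L.card * l * l) * 1 := by nlinarith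
  exact le_of_mul_le_mul_left e6 (by positivity)

/-- upper density from counts on blocks -/
theorem limsup_le {Z : ℕ → Bool} {K U n0 : ℕ} (hK : 0 < K) (hU : 0 < U) {α : ℝ} (hα : 0 ≤ α)
    (h : ∀ n, n0 ≤ n → ∀ j, K ≤ j → j < 2 * K →
      (Nat.count (fun r => Z (j * (U * 2 ^ n) + r) = true) (U * 2 ^ n) : ℝ) ≤
        α * (U * 2 ^ n : ℕ)) :
    limsup (ratio Z) atTop ≤ α + 2 / K := by
  let c : ℕ → ℝ := fun N => Nat.count (fun x => Z x = true) N
  let c0 : ℕ := K * (U * 2 ^ n0)
  have s1 : ∀ n, n0 ≤ n → c (K * (U * 2 ^ n)) ≤ c0 + α * (K * (U * 2 ^ n) : ℕ) →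
      ∀ j, K ≤ j → j ≤ 2 * K → c (j * (U * 2 ^ n)) ≤ c0 + α * (j * (U * 2 ^ n) : ℕ) := by
    intro n hn h0 j hj
    induction j, hj using Nat.le_induction with
    | base => exact fun _ => h0
    | succ j hj ih =>
      intro hj2
      have k1 := ih (by omega)
      have k2 := h n hn j hj (by omega)
      simp only [c] at k1 ⊢
      rw [add_mul, one_mul, Nat.count_add]
      push_cast at k1 k2 ⊢
      linarith
  have s2 : ∀ n, n0 ≤ n → c (K * (U * 2 ^ n)) ≤ c0 + α * (K * (U * 2 ^ n) : ℕ) := by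
    intro n hn
    induction n, hn using Nat.le_induction with
    | base =>
      have : c c0 ≤ c0 := by simp only [c]; exact_mod_cast Nat.count_le _
      have h2 : 0 ≤ α * (K * (U * 2 ^ n0) : ℕ) := by positivity
      simp only [c0] at this ⊢
      linarith
    | succ n hn ih =>
      have := s1 n hn ih (2 * K) (by omega) le_rfl
      rwa [show 2 * K * (U * 2 ^ n) = K * (U * 2 ^ (n + 1)) by ring] at this
  refine limsup_le_of_le (ratio_cobdd _) ?_
  filter_upwards [eventually_ge_atTop (K * c0), eventually_gt_atTop 0] with N hN hN0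
  have hex : ∃ n, N < K * (U * 2 ^ (n + 1)) := by
    refine ⟨N, ?_⟩
    have : N < 2 ^ (N + 1) := (Nat.lt_succ_self N).trans Nat.lt_two_pow_self
    calc N < 1 * (1 * 2 ^ (N + 1)) := by simpa using this
      _ ≤ _ := by gcongr <;> omega
  have hc0 : c0 ≤ N := le_trans (Nat.le_mul_of_pos_left _ hK) hN
  obtain ⟨n, hn0, hn1, hn2⟩ : ∃ n, n0 ≤ n ∧ K * (U * 2 ^ n) ≤ N ∧ N < K * (U * 2 ^ (n + 1)) := by
    classical
    have k0 : n0 ≤ Nat.find hex := by
      by_contra k
      have k1 := Nat.find_spec hex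
      have k2 : K * (U * 2 ^ (Nat.find hex + 1)) ≤ c0 := by
        simp only [c0]; gcongr <;> omega
      omega
    refine ⟨Nat.find hex, k0, ?_, Nat.find_spec hex⟩
    rcases Nat.eq_or_lt_of_le k0 with k | k
    · rw [← k]; exact hc0
    · have := Nat.find_min hex (m := Nat.find hex - 1) (by omega)
      rw [Nat.sub_add_cancel (by omega)] at this
      omega
  set l := U * 2 ^ n with hl
  have hl0 : 0 < l := by positivity
  have j1 : K ≤ N / l := (Nat.le_div_iff_mul_le hl0).2 hn1
  have j2 : N / l ≤ 2 * K := by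
    refine (Nat.div_lt_iff_lt_mul hl0).2 ?_ |>.le
    rwa [show 2 * K * l = K * (U * 2 ^ (n + 1)) by rw [hl]; ring]
  have k1 := s1 n hn0 (s2 n hn0) _ j1 j2
  have k2 : c N ≤ c (N / l * l) + l := by
    simp only [c]
    conv_lhs => rw [← Nat.div_add_mod' N l, Nat.count_add]
    have : Nat.count (fun k => Z (N / l * l + k) = true) (N % l) ≤ l :=
      (Nat.count_le _).trans (Nat.mod_lt _ hl0).le
    push_cast
    have : (Nat.count (fun k => Z (N / l * l + k) = true) (N % l) : ℝ) ≤ l := by exact_mod_cast this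
    linarith
  have k3 : ((N / l * l : ℕ) : ℝ) ≤ N := by exact_mod_cast Nat.div_mul_le_self N l
  have hK' : (0 : ℝ) < K := by exact_mod_cast hK
  have k4 : (c0 : ℝ) ≤ N / K := by
    rw [le_div_iff₀ hK', mul_comm]; exact_mod_cast hN
  have k5 : (l : ℝ) ≤ N / K := by
    rw [le_div_iff₀ hK', mul_comm]; exact_mod_cast hn1
  have k6 : ratio Z N = c N / N := by simp only [ratio, c, Nat.count_eq_card_filter_range]
  rw [k6, div_le_iff₀ (by exact_mod_cast hN0)]
  have k7 : (α + 2 / K) * N = α * N + N / K + N / K := by ring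
  rw [← hl] at k1
  nlinarith [mul_le_mul_of_nonneg_left k3 hα]

/-! ### the computable code -/

/-- the length of the code words -/
def len (m n : ℕ) : ℕ := 2 * m ^ 4 * 2 ^ n

/-- the code word number `v` of the table `t` -/
def word (t l v : ℕ) (r : ℕ) : Bool := t.testBit (v * l + r)

theorem cnt_count {β : Type} (R : ℕ → β → Prop) [DecidableRel R] (n : ℕ) (b : β) :
    cnt R n b = Nat.count (fun i => R i b) n := by
  rw [cnt_eq, Nat.count_eq_card_filter_range]

/-- the table `t` is a good code -/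
def Good (m n t : ℕ) : Prop := ∀ v < 2 ^ 2 ^ n, ∀ w < v, m ^ 2 * len m n ≤ 2 * m ^ 2 *
  Nat.count (fun r => xor (word t (len m n) w r) (word t (len m n) v r) = true) (len m n) + len m n

theorem prim_len (m : ℕ) : Primrec (len m) :=
  Primrec.nat_mul.comp (Primrec.const _) (prim_pow.comp (Primrec.const 2) Primrec.id)

theorem prim_two : Primrec fun n : ℕ => 2 ^ 2 ^ n :=
  prim_pow.comp (Primrec.const 2) (prim_pow.comp (Primrec.const 2) Primrec.id)

theorem prim_word {α : Type} [Primcodable α] {t l v r : α → ℕ} (ht : Primrec t) (hl : Primrec l)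
    (hv : Primrec v) (hr : Primrec r) : Primrec fun a => word (t a) (l a) (v a) (r a) :=
  prim_testBit.comp ht (Primrec.nat_add.comp (Primrec.nat_mul.comp hv hl) hr)

theorem prim_xor {α : Type} [Primcodable α] {x y : α → Bool} (hx : Primrec x) (hy : Primrec y) :
    PrimrecPred fun a => xor (x a) (y a) = true :=
  Primrec.eq.comp ((Primrec.dom_bool₂ xor).comp hx hy) (Primrec.const true)

theorem prim_count {α : Type} [Primcodable α] {R : ℕ → α → Prop} [DecidableRel R]
    (h : PrimrecRel R) {n : α → ℕ} (hn : Primrec n) :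
    Primrec fun a => Nat.count (fun i => R i a) (n a) :=
  ((prim_cnt h).comp hn Primrec.id).of_eq fun _ => cnt_count R _ _

theorem prim_good (m : ℕ) : PrimrecRel (Good m) := by
  have l1 : Primrec fun q : ℕ × ℕ × ℕ × ℕ => len m q.2.2.1 :=
    (prim_len m).comp (Primrec.fst.comp (Primrec.snd.comp Primrec.snd))
  have t1 : Primrec fun q : ℕ × ℕ × ℕ × ℕ => q.2.2.2 :=
    Primrec.snd.comp (Primrec.snd.comp Primrec.snd)
  have p1 : PrimrecRel fun (r : ℕ) (q : ℕ × ℕ × ℕ × ℕ) =>
      xor (word q.2.2.2 (len m q.2.2.1) q.1 r) (word q.2.2.2 (len m q.2.2.1) q.2.1 r) = true :=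
    prim_xor (prim_word (t1.comp Primrec.snd) (l1.comp Primrec.snd)
      (Primrec.fst.comp Primrec.snd) Primrec.fst) (prim_word (t1.comp Primrec.snd)
      (l1.comp Primrec.snd) (Primrec.fst.comp (Primrec.snd.comp Primrec.snd)) Primrec.fst)
  have p2 : PrimrecRel fun (w : ℕ) (q : ℕ × ℕ × ℕ) => m ^ 2 * len m q.2.1 ≤ 2 * m ^ 2 *
      Nat.count (fun r => xor (word q.2.2 (len m q.2.1) w r)
        (word q.2.2 (len m q.2.1) q.1 r) = true) (len m q.2.1) + len m q.2.1 :=
    Primrec.nat_le.comp (Primrec.nat_mul.comp (Primrec.const _) l1) (Primrec.nat_add.comp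
      (Primrec.nat_mul.comp (Primrec.const _) (prim_count p1 l1)) l1)
  have p3 : PrimrecRel fun (v : ℕ) (q : ℕ × ℕ) => ∀ w < v, m ^ 2 * len m q.1 ≤ 2 * m ^ 2 *
      Nat.count (fun r => xor (word q.2 (len m q.1) w r)
        (word q.2 (len m q.1) v r) = true) (len m q.1) + len m q.1 :=
    prim_forall p2 Primrec.fst Primrec.id
  exact prim_forall p3 (prim_two.comp Primrec.fst) Primrec.id

theorem ip_congr {x x' y y' : ℕ → Bool} {l : ℕ} (hx : ∀ r < l, x r = x' r)
    (hy : ∀ r < l, y r = y' r) : ip x y l = ip x' y' l :=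
  Finset.sum_congr rfl fun r hr => by
    rw [hx r (Finset.mem_range.1 hr), hy r (Finset.mem_range.1 hr)]

theorem len_pos {m : ℕ} (hm : 0 < m) (n : ℕ) : 0 < len m n := by unfold len; positivity

theorem exists_good {m : ℕ} (hm : 0 < m) (n : ℕ) : ∃ t, Good m n t := by
  have hm' : (0 : ℝ) < m := by exact_mod_cast hm
  have hl := len_pos hm n
  obtain ⟨c, hc⟩ := exists_code (l := len m n) (ε := len m n / m ^ 2) (by positivity)
    (2 ^ 2 ^ n) (by
      have e : -((len m n : ℝ) / m ^ 2) ^ 2 / (2 * len m n) = (2 ^ n : ℕ) * (-1 : ℝ) := by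
        unfold len; push_cast; field_simp
      rw [e, Real.exp_nat_mul]
      push_cast
      rw [← mul_pow]
      refine pow_lt_one₀ (by positivity) ?_ (by positivity)
      rw [Real.exp_neg, ← div_eq_mul_inv, div_lt_one (Real.exp_pos _)]
      linarith [Real.exp_one_gt_d9])
  set l := len m n
  obtain ⟨t, -, ht⟩ := exists_bits (fun i => c (i / l) (i % l)) (2 ^ 2 ^ n * l)
  have hw : ∀ v < 2 ^ 2 ^ n, ∀ r < l, c v r = word t l v r := by
    intro v hv r hr
    have h1 : v * l + r < 2 ^ 2 ^ n * l := by nlinarith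
    have := seg_eq_iff.1 ht _ h1
    simp only [word, ← this]
    rw [mul_comm, Nat.mul_add_div hl, Nat.div_eq_of_lt hr, Nat.mul_add_mod, Nat.mod_eq_of_lt hr,
      add_zero]
  refine ⟨t, fun v hv w hw' => ?_⟩
  have h1 := hc v hv w hw'
  rw [ip_congr (hw w (hw'.trans hv)) (hw v hv), ip_eq, lt_div_iff₀ (by positivity)] at h1
  have : (m : ℝ) ^ 2 * l ≤ 2 * m ^ 2 *
    (Nat.count (fun r => xor (word t l w r) (word t l v r) = true) l : ℝ) + l := by linarith
  exact_mod_cast this

/-- the word `v` is far from the block `j` of `σ` -/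
def Far (m l t j : ℕ) (σ : List Bool) (v : ℕ) : Prop :=
  (m + 2) * l ≤ 2 * m * Nat.count (fun r => xor (word t l v r) (σ.getD (j * l + r) false) = true) l

instance (m l t j : ℕ) (σ : List Bool) (v : ℕ) : Decidable (Far m l t j σ v) := Nat.decLe _ _

theorem card_far {m n t : ℕ} (hm : 0 < m) (ht : Good m n t) (j : ℕ) (σ : List Bool) :
    ((Finset.range (2 ^ 2 ^ n)).filter (Far m (len m n) t j σ)).card ≤ m ^ 2 := by
  have hm' : (0 : ℝ) < m := by exact_mod_cast hm
  have := johnson (len_pos hm n) (γ := 1 / m ^ 2) (η := 2 / m) (by positivity) (by positivity)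
    (word t (len m n)) (fun r => σ.getD (j * len m n + r) false)
    ((Finset.range (2 ^ 2 ^ n)).filter (Far m (len m n) t j σ)) ?_ ?_
  · have e : ((2 : ℝ) / m) ^ 2 - 1 / m ^ 2 = 3 / m ^ 2 := by field_simp; norm_num
    rw [e, ← mul_div_assoc, div_le_one (by positivity)] at this
    have h2 : (((Finset.range (2 ^ 2 ^ n)).filter (Far m (len m n) t j σ)).card : ℝ) ≤ m ^ 2 := by
      linarith [Nat.cast_nonneg (α := ℝ)
        ((Finset.range (2 ^ 2 ^ n)).filter (Far m (len m n) t j σ)).card]
    exact_mod_cast h2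
  · intro v hv w _ hw
    have h1 := ht v (Finset.mem_range.1 (Finset.mem_filter.1 hv).1) w hw
    rw [ip_eq, one_div, inv_mul_eq_div, le_div_iff₀ (by positivity)]
    have h2 : (m : ℝ) ^ 2 * len m n ≤ 2 * m ^ 2 * (Nat.count (fun r =>
      xor (word t (len m n) w r) (word t (len m n) v r) = true) (len m n) : ℝ) + len m n := by
      exact_mod_cast h1
    linarith
  · intro v hv
    have h1 := (Finset.mem_filter.1 hv).2
    rw [ip_eq, div_mul_eq_mul_div, ← neg_div, le_div_iff₀ hm']
    have h2 : ((m : ℝ) + 2) * len m n ≤ 2 * m * (Nat.count (fun r => xor (word t (len m n) v r)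
      (σ.getD (j * len m n + r) false) = true) (len m n) : ℝ) := by exact_mod_cast h1
    linarith

/-- every bounded trace computable in `B` is avoided by a bounded function computable in `A` -/
def Avoid (A B : ℕ → Bool) : Prop :=
  ∀ (L : ℕ) (F : ℕ → List ℕ), ComputableIn {chi B} F → (∀ n, (F n).length ≤ L) →
    ∃ h : ℕ → ℕ, ComputableIn {chi A} h ∧ (∀ n, h n < 2 ^ 2 ^ n) ∧ ∀ᶠ n in atTop, h n ∉ F n

theorem approx_of_avoid {A B D : ℕ → Bool} (h : Avoid A B) (hD : ComputableIn {chi B} D)
    {ε : ℝ} (hε : 0 < ε) : ∃ C, ComputableIn {chi A} C ∧ delta C D ≤ 1 / 2 + ε := by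
  classical
  obtain ⟨m, hm⟩ := exists_nat_gt (3 / ε)
  have hm' : (0 : ℝ) < m := lt_trans (by positivity) hm
  have hm0 : 0 < m := by exact_mod_cast hm'
  have hex : ∀ n, ∃ t, decide (Good m n t) = true := fun n => by simpa using exists_good hm0 n
  let T : ℕ → ℕ := fun n => Nat.find (hex n)
  have hT : ∀ O, ComputableIn O T := fun O =>
    ci_find (p := fun n t => decide (Good m n t)) (prim_good m).decide.computableIn₂ hex
  have hG : ∀ n, Good m n (T n) := fun n => of_decide_eq_true (Nat.find_spec (hex n))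
  have l1 : Primrec fun q : ℕ × ℕ × ℕ × ℕ × List Bool => len m q.2.2.1 :=
    (prim_len m).comp (Primrec.fst.comp (Primrec.snd.comp Primrec.snd))
  have p1 : PrimrecRel fun (r : ℕ) (q : ℕ × ℕ × ℕ × ℕ × List Bool) =>
      xor (word q.2.2.2.1 (len m q.2.2.1) q.2.1 r)
        (q.2.2.2.2.getD (q.1 * len m q.2.2.1 + r) false) = true :=
    prim_xor (prim_word ((Primrec.fst.comp (Primrec.snd.comp (Primrec.snd.comp
      Primrec.snd))).comp Primrec.snd) (l1.comp Primrec.snd)
      (Primrec.fst.comp (Primrec.snd.comp Primrec.snd)) Primrec.fst)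
      ((Primrec.list_getD false).comp ((Primrec.snd.comp (Primrec.snd.comp (Primrec.snd.comp
        Primrec.snd))).comp Primrec.snd) (Primrec.nat_add.comp (Primrec.nat_mul.comp
          (Primrec.fst.comp Primrec.snd) (l1.comp Primrec.snd)) Primrec.fst))
  have p2 : PrimrecRel fun (j : ℕ) (q : ℕ × ℕ × ℕ × List Bool) =>
      ¬Far m (len m q.2.1) q.2.2.1 j q.2.2.2 q.1 :=
    PrimrecPred.not (Primrec.nat_le.comp (Primrec.nat_mul.comp (Primrec.const _) l1)
      (Primrec.nat_mul.comp (Primrec.const _) (prim_count p1 l1)))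
  have p3 : PrimrecRel fun (v : ℕ) (q : ℕ × ℕ × List Bool) =>
      ¬∀ j < 2 * m, ¬Far m (len m q.1) q.2.1 j q.2.2 v :=
    PrimrecPred.not (prim_forall p2 (Primrec.const (2 * m)) Primrec.id)
  have p4 := p3.listFilter.comp (Primrec.list_range.comp (prim_two.comp Primrec.fst)) Primrec.id
  have p5 := ci_comp p4.computableIn (ci_pair ComputableIn.id (ci_pair (hT _) (ci_comp (ci_seg hD)
    (Primrec.nat_mul.comp (Primrec.const (2 * m)) (prim_len m)).computableIn)))
  obtain ⟨g, hg, hg1, hg2⟩ := h (2 * m * m ^ 2) _ p5 (by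
    intro n
    rw [← List.toFinset_card_of_nodup (List.nodup_range.filter _)]
    refine le_trans (Finset.card_le_card (t := (Finset.range (2 * m)).biUnion fun j =>
      (Finset.range (2 ^ 2 ^ n)).filter (Far m (len m n) (T n) j (seg D (2 * m * len m n))))
      fun v hv => ?_) (Finset.card_biUnion_le_card_mul _ _ _ fun j _ =>
        card_far hm0 (hG n) j _ |>.trans le_rfl) |>.trans (by simp)
    simp only [List.mem_toFinset, List.mem_filter, List.mem_range, decide_eq_true_eq, id,
      not_forall, not_not, Finset.mem_biUnion, Finset.mem_filter, Finset.mem_range] at hv ⊢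
    obtain ⟨h1, j, hj, h2⟩ := hv
    exact ⟨j, hj, h1, h2⟩)
  let lev : ℕ → ℕ := fun x => Nat.findGreatest (fun n => m * len m n ≤ x) x
  have q1 : Primrec lev := Primrec.nat_findGreatest (p := fun x n => m * len m n ≤ x) Primrec.id
    (Primrec.nat_le.comp (Primrec.nat_mul.comp (Primrec.const m)
      ((prim_len m).comp Primrec.snd)) Primrec.fst)
  have hlev : ∀ n x, m * len m n ≤ x → x < 2 * m * len m n → lev x = n := by
    intro n x h1 h2
    have h3 : n < 2 ^ n := Nat.lt_two_pow_self
    have h4 : 1 * (1 * 2 ^ n) ≤ m * len m n := by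
      unfold len; gcongr
      · omega
      · have := pow_pos hm0 4; omega
    refine Nat.findGreatest_eq_iff.2 ⟨by omega, fun _ => h1, fun k hk _ h => ?_⟩
    have : 2 * m * len m n ≤ m * len m k := by
      rw [show 2 * m * len m n = m * len m (n + 1) by unfold len; ring]
      unfold len; gcongr <;> omega
    omega
  have q2 : Primrec fun q : ℕ × ℕ × ℕ =>
      word q.2.1 (len m (lev q.1)) q.2.2 (q.1 % len m (lev q.1)) :=
    prim_word (Primrec.fst.comp Primrec.snd) ((prim_len m).comp (q1.comp Primrec.fst))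
      (Primrec.snd.comp Primrec.snd) (Primrec.nat_mod.comp Primrec.fst
        ((prim_len m).comp (q1.comp Primrec.fst)))
  refine ⟨_, ci_comp q2.computableIn (ci_pair ComputableIn.id (ci_pair
    (ci_comp (hT _) q1.computableIn) (ci_comp hg q1.computableIn))), ?_⟩
  obtain ⟨n0, hn0⟩ := eventually_atTop.1 hg2
  rw [delta_eq]
  refine (limsup_le (K := m) (U := 2 * m ^ 4) (n0 := n0) (α := 1 / 2 + 1 / m) hm0 (by positivity)
    (by positivity) fun n hn j hj1 hj2 => ?_).trans ?_
  · have h1 := hn0 n hn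
    simp only [List.mem_filter, List.mem_range, decide_eq_true_eq, id, hg1 n, true_and,
      not_not] at h1
    have h2 := h1 j hj2
    change (Nat.count _ (len m n) : ℝ) ≤ _ * (len m n : ℕ)
    have hl := len_pos hm0 n
    have h3 : Nat.count (fun r => xor (word (T (lev (j * len m n + r))) (len m (lev
        (j * len m n + r))) (g (lev (j * len m n + r))) ((j * len m n + r) % len m (lev
        (j * len m n + r)))) (D (j * len m n + r)) = true) (len m n) = Nat.count (fun r =>
          xor (word (T n) (len m n) (g n) r)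
          ((seg D (2 * m * len m n)).getD (j * len m n + r) false) = true) (len m n) := by
      simp only [Nat.count_eq_card_filter_range]
      refine congrArg _ (Finset.filter_congr fun r hr => ?_)
      rw [Finset.mem_range] at hr
      have h4 : j * len m n + r < 2 * m * len m n := by nlinarith
      rw [hlev n _ (by nlinarith) h4, getD_seg _ h4, mul_comm j, Nat.mul_add_mod,
        Nat.mod_eq_of_lt hr]
    have h5 := Nat.cast_le (α := ℝ) |>.2 (not_le.1 h2).le
    rw [← h3] at h5
    push_cast at h5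
    have e : (1 / 2 + 1 / (m : ℝ)) * len m n = ((m + 2) * len m n) / (2 * m) := by
      field_simp
    rw [e, le_div_iff₀ (by positivity), mul_comm]
    exact h5
  · rw [div_lt_iff₀ hε] at hm
    have : (1 : ℝ) / m + 2 / m ≤ ε := by
      rw [← add_div, div_le_iff₀ hm']; linarith
    linarith

end Pool.Agent.P.MP_ef7593_lc.Dn
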