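import Pool.Agent.P.MP_ef7593_lc.Defs

/-! Bounded functions that avoid the values computed by almost every oracle. -/

set_option autoImplicit false
open Filter MeasureTheory

namespace Pool.Agent.P.MP_ef7593_lc

/-- `A` computes a function `h` below `2 ^ 2 ^ n` such that for almost every `B`, each function
`f : ℕ →. ℕ` recursive in `B` takes the value `h n` at `n` only finitely often. -/
def AEAvoiding (A : ℕ → Bool) : Prop :=
  ∃ h : ℕ → ℕ, ComputableIn {chi A} h ∧ (∀ n, h n < 2 ^ 2 ^ n) ∧
    ∀ᵐ B ∂coin, ∀ f : ℕ →. ℕ, RecursiveIn {chi B} f → ∀ᶠ n in atTop, h n ∉ f n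

end Pool.Agent.P.MP_ef7593_lc
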