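import Mathlib
import Pool.Agent.P.MP_ef7593_lc.DnB
import Pool.Agent.P.MP_ef7593_lc.DnDefs
import Pool.Agent.P.MP_ef7593_lc.AeApprox

/-! The classification of the attractive degrees. -/

set_option autoImplicit false
set_option backward.isDefEq.respectTransparency false
open Encodable Filter Denumerable MeasureTheory
open Nat.Partrec (Code)
open Nat.Partrec.Code
open scoped ENNReal

namespace Pool.Agent.P.MP_ef7593_lc.Dn

theorem attractive_of_avoiding {A : ℕ → Bool} (h : AEAvoiding A) : Attractive A := by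
  obtain ⟨g, hg, hg1, hg2⟩ := h
  refine attractive_of_approx ?_
  filter_upwards [hg2] with B hB D hD ε hε
  refine approx_of_avoid (B := B) (fun L F hF hL => ⟨g, hg, hg1, ?_⟩) hD hε
  have h1 : ∀ i ∈ Set.Iio L, ∀ᶠ n in atTop, g n ∉ Part.some ((F n).getD i 0) := fun i _ =>
    hB _ (ci_comp (f := fun l : List ℕ => l.getD i 0)
      ((Primrec.list_getD 0).comp Primrec.id (Primrec.const i)).computableIn hF)
  filter_upwards [(eventually_all_finite (Set.finite_Iio L)).2 h1] with n hn hm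
  obtain ⟨i, hi, e⟩ := List.getElem_of_mem hm
  refine hn i (hi.trans_le (hL n)) ?_
  rw [List.getD_eq_getElem _ _ hi, e]
  exact Part.mem_some _

/-! ### escaping functions -/

/-- the functional has converged below `m + 1` -/
def PL (c : Code) (m : ℕ) (σ : List Bool) : Prop :=
  ∀ i < m + 1, (univ c i σ).getD (σ.length + 1) ≤ σ.length

theorem prim_PL (c : Code) : PrimrecRel (PL c) :=
  prim_forall (R := fun i (σ : List Bool) => (univ c i σ).getD (σ.length + 1) ≤ σ.length)
    (Primrec.nat_le.comp (Primrec.option_getD.comp (prim_univ.comp ((Primrec.const c).pair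
      Primrec.id)) (Primrec.succ.comp (Primrec.list_length.comp Primrec.snd)))
      (Primrec.list_length.comp Primrec.snd)) (Primrec.succ.comp Primrec.fst) Primrec.snd

/-- the oracles for which the time of convergence escapes -/
def Esc (A : ℕ → Bool) (c : Code) : Set (ℕ → Bool) :=
  {B | (∀ m, ∃ s, PL c m (seg B s)) ∧ ∀ g : {g : ℕ → ℕ | ComputableIn {chi A} g}, ∀ N, ∃ m, N ≤ m ∧
    ∀ s, PL c m (seg B s) → g.1 m ≤ s}

theorem meas_esc (A : ℕ → Bool) (c : Code) : MeasurableSet (Esc A c) := by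
  have := (countable_computableIn A).to_subtype
  exact measurableSet_setOfPred.2 ((Measurable.forall fun m => Measurable.exists fun s =>
    meas_seg _ s).and (Measurable.forall fun g => Measurable.forall fun N =>
      Measurable.exists fun m => measurable_const.and (Measurable.forall fun s =>
        (meas_seg _ s).imp measurable_const)))

theorem exists_esc {A : ℕ → Bool} (h : ¬AEDominating A) : ∃ c, coin (Esc A c) ≠ 0 := by
  by_contra hh
  push Not at hh
  refine h (le_antisymm prob_le_one ?_)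
  rw [← measure_univ (μ := coin)]
  refine measure_mono_ae ?_
  filter_upwards [ae_all_iff.2 fun c => measure_eq_zero_iff_ae_notMem.1 (hh c)] with B hB _ t ht
  obtain ⟨c, hc, hc'⟩ := exists_mono ht
  have h1 : ∀ m, ∃ s, PL c m (seg B s) := by
    intro m
    have : ∀ i ∈ Set.Iio (m + 1), ∀ᶠ s in atTop,
        (univ c i (seg B s)).getD ((seg B s).length + 1) ≤ (seg B s).length := by
      intro i _
      obtain ⟨s, hs⟩ := (hc' i (t i)).1 (by simp)
      filter_upwards [eventually_ge_atTop s, eventually_ge_atTop (t i)] with s' h1 h2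
      rw [hc.univ_mono h1 hs]
      simpa using h2
    exact ((eventually_all_finite (Set.finite_Iio _)).2 this).exists
  have h2 := hB c
  simp only [Esc, Set.mem_ofPred_eq, h1, implies_true, true_and, not_forall, not_exists, not_and,
    not_le] at h2
  obtain ⟨g, N, hg⟩ := h2
  refine ⟨g.1, g.2, eventually_atTop.2 ⟨N, fun m hm => ?_⟩⟩
  obtain ⟨s, hs, hs'⟩ := hg m hm
  have h3 := hs m (Nat.lt_succ_self m)
  rw [seg_length] at h3
  cases e : univ c m (seg B s) with
  | none => rw [e] at h3; simp at h3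
  | some v =>
    rw [e] at h3
    have h4 : v = t m := by simpa using (hc' m v).2 ⟨s, e⟩
    rw [← h4]
    exact le_trans h3 hs'.le

/-! ### guessing -/

/-- the number with the given binary digits -/
def enc (σ : List Bool) : ℕ := σ.foldr (fun b a => Nat.bit b a) 0

theorem prim_enc : Primrec enc :=
  (Primrec.list_foldr (h := fun (_ : List Bool) (p : Bool × ℕ) => 2 * p.2 + cond p.1 1 0)
    Primrec.id (Primrec.const 0) (Primrec.nat_add.comp (Primrec.nat_mul.comp (Primrec.const 2)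
      (Primrec.snd.comp Primrec.snd)) (Primrec.cond (Primrec.fst.comp Primrec.snd)
        (Primrec.const 1) (Primrec.const 0))).to₂).of_eq fun σ => by
    unfold enc
    congr 1
    funext b a
    cases b <;> simp [Nat.bit]

theorem enc_lt (σ : List Bool) : enc σ < 2 ^ σ.length := by
  induction σ with
  | nil => simp [enc]
  | cons b σ ih =>
    unfold enc at ih ⊢
    rw [List.foldr_cons, List.length_cons, pow_succ, Nat.bit_val]
    cases b <;> simp <;> omega

theorem enc_bit (σ : List Bool) (i : ℕ) : (enc σ).testBit i = σ.getD i false := by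
  induction σ generalizing i with
  | nil => simp [enc]
  | cons b σ ih =>
    unfold enc at ih ⊢
    rw [List.foldr_cons]
    cases i with
    | zero => simp
    | succ i => rw [Nat.testBit_bit_succ, ih]; simp

/-- the value of the functional at `m` has the digits `τ` below `4 ^ (m + 1)` -/
def Hit (c : Code) (m : ℕ) (σ τ : List Bool) : Prop :=
  (univ c m σ).map (fun v => seg v.testBit (4 ^ (m + 1))) = some τ

theorem Hit.mono {c : Code} (hc : Mono c) {m s t : ℕ} {X : ℕ → Bool} {τ : List Bool}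
    (hst : s ≤ t) (h : Hit c m (seg X s) τ) : Hit c m (seg X t) τ := by
  obtain ⟨v, hv, e⟩ := Option.map_eq_some_iff.1 h
  exact Option.map_eq_some_iff.2 ⟨v, hc.univ_mono hst hv, e⟩

theorem exists_hit {A D : ℕ → Bool} (h : ¬AEAvoiding A) (hD : ComputableIn {chi A} D) :
    ∃ c, Mono c ∧
      coin {B | ∀ N, ∃ m, N ≤ m ∧ ∃ s, Hit c m (seg B s) (seg D (4 ^ (m + 1)))} ≠ 0 := by
  by_contra hh
  push Not at hh
  refine h ⟨fun n => enc (seg D (2 ^ n)), ci_comp prim_enc.computableIn (ci_comp (ci_seg hD)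
    (prim_pow.comp (Primrec.const 2) Primrec.id).computableIn),
    fun n => by simpa using enc_lt (seg D (2 ^ n)), ?_⟩
  filter_upwards [ae_all_iff.2 fun c : {c // Mono c} =>
    measure_eq_zero_iff_ae_notMem.1 (hh c.1 c.2)] with B hB f hf
  have key : ∀ j, ∃ N, ∀ m, N ≤ m → enc (seg D (2 ^ (2 * m + 2 + j))) ∉ f (2 * m + 2 + j) := by
    intro j
    obtain ⟨c, hc, hc'⟩ := exists_mono (ri_comp (g := fun m => 2 * m + 2 + j) hf
      (Primrec.nat_add.comp (Primrec.nat_add.comp (Primrec.nat_mul.comp (Primrec.const 2)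
        Primrec.id) (Primrec.const 2)) (Primrec.const j)).computableIn)
    have h1 := hB ⟨c, hc⟩
    simp only [not_forall, not_exists, not_and] at h1
    obtain ⟨N, hN⟩ := h1
    refine ⟨N, fun m hm hv => ?_⟩
    obtain ⟨s, hs⟩ := (hc' m _).1 hv
    refine hN m hm s (Option.map_eq_some_iff.2 ⟨_, hs, seg_eq_iff.2 fun i hi => ?_⟩)
    rw [enc_bit, getD_seg]
    refine hi.trans_le ?_
    rw [show 4 = 2 ^ 2 by rfl, ← pow_mul]
    exact Nat.pow_le_pow_right two_pos (by omega)
  obtain ⟨N0, h0⟩ := key 0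
  obtain ⟨N1, h1⟩ := key 1
  filter_upwards [eventually_ge_atTop (2 * (N0 + N1) + 2)] with n hn
  rcases Nat.even_or_odd' n with ⟨k, rfl | rfl⟩
  · have := h0 (k - 1) (by omega)
    rwa [show 2 * (k - 1) + 2 + 0 = 2 * k by omega] at this
  · have := h1 (k - 1) (by omega)
    rwa [show 2 * (k - 1) + 2 + 1 = 2 * k + 1 by omega] at this

theorem two_pow_le (a k s : ℕ) : (2⁻¹ : ℝ≥0∞) ^ k ≤ a * 2⁻¹ ^ s ↔ 2 ^ s ≤ 2 ^ k * a := by
  have e : ∀ n : ℕ, (2 : ℝ≥0∞) ^ n * 2⁻¹ ^ n = 1 := fun n => by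
    rw [← mul_pow, ENNReal.mul_inv_cancel (by simp) (by simp), one_pow]
  rw [← ENNReal.mul_le_mul_iff_right (a := 2 ^ k * 2 ^ s) (by simp) (by finiteness),
    show (2 : ℝ≥0∞) ^ k * 2 ^ s * 2⁻¹ ^ k = 2 ^ s * (2 ^ k * 2⁻¹ ^ k) by ring,
    show (2 : ℝ≥0∞) ^ k * 2 ^ s * (a * 2⁻¹ ^ s) = 2 ^ k * a * (2 ^ s * 2⁻¹ ^ s) by ring, e, e,
    mul_one, mul_one]
  norm_cast

/-- a hit between `n` and the length of `σ` -/
def Hits (c : Code) (n : ℕ) (σ τ : List Bool) : Prop :=
  ¬∀ m < σ.length, ¬(n ≤ m ∧ Hit c m σ (τ.take (4 ^ (m + 1))))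

theorem prim_hits (c : Code) :
    PrimrecPred fun q : ℕ × List Bool × List Bool => Hits c q.1 q.2.1 q.2.2 := by
  have p0 : Primrec fun r : ℕ × ℕ × List Bool × List Bool => 4 ^ (r.1 + 1) :=
    prim_pow4.comp (Primrec.succ.comp Primrec.fst)
  have p1 : PrimrecRel fun (m : ℕ) (q : ℕ × List Bool × List Bool) =>
      ¬(q.1 ≤ m ∧ Hit c m q.2.1 (q.2.2.take (4 ^ (m + 1)))) :=
    PrimrecPred.not ((Primrec.nat_le.comp (Primrec.fst.comp Primrec.snd) Primrec.fst).and
      (Primrec.eq.comp (Primrec.option_map (prim_univ.comp ((Primrec.const c).pair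
        (Primrec.fst.pair (Primrec.fst.comp (Primrec.snd.comp Primrec.snd)))))
        (prim_bits.comp Primrec.snd (p0.comp Primrec.fst)).to₂) (Primrec.option_some.comp
          (Primrec.list_take.comp p0 (Primrec.snd.comp (Primrec.snd.comp Primrec.snd))))))
  exact PrimrecPred.not (prim_forall p1
    (Primrec.list_length.comp (Primrec.fst.comp Primrec.snd)) Primrec.id)

theorem hits_iff (c : Code) (n s : ℕ) (B D : ℕ → Bool) :
    Hits c n (seg B s) (seg D (4 ^ s)) ↔
      ∃ m < s, n ≤ m ∧ Hit c m (seg B s) (seg D (4 ^ (m + 1))) := by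
  simp only [Hits, seg_length, not_forall, not_not, exists_prop]
  refine exists_congr fun m => and_congr_right fun hm => ?_
  rw [seg_take _ (Nat.pow_le_pow_right (by norm_num) hm)]

theorem exists_stage {A D : ℕ → Bool} (hD : ComputableIn {chi A} D) {c : Code} (hc : Mono c)
    (h : coin {B | ∀ N, ∃ m, N ≤ m ∧ ∃ s, Hit c m (seg B s) (seg D (4 ^ (m + 1)))} ≠ 0) :
    ∃ (k : ℕ) (g : ℕ → ℕ), ComputableIn {chi A} g ∧ ∀ n, 2⁻¹ ^ k ≤
      coin {B | ∃ m < g n, n ≤ m ∧ Hit c m (seg B (g n)) (seg D (4 ^ (m + 1)))} := by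
  classical
  obtain ⟨k, hk⟩ := ENNReal.exists_inv_two_pow_lt h
  have p1 : PrimrecRel fun (i : ℕ) (q : ℕ × ℕ × List Bool) =>
      Hits c q.1 (seg i.testBit q.2.1) q.2.2 :=
    (prim_hits c).comp ((Primrec.fst.comp Primrec.snd).pair ((prim_bits.comp Primrec.fst
      (Primrec.fst.comp (Primrec.snd.comp Primrec.snd))).pair
      (Primrec.snd.comp (Primrec.snd.comp Primrec.snd))))
  have p0 : Primrec fun q : ℕ × ℕ × List Bool => 2 ^ q.2.1 :=
    prim_pow.comp (Primrec.const 2) (Primrec.fst.comp Primrec.snd)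
  have p2 := Primrec.nat_le.decide.comp p0
    (Primrec.nat_mul.comp (Primrec.const (2 ^ k)) (prim_count p1 p0))
  have p3 := ci_comp p2.computableIn (ci_pair Primrec.fst.computableIn (ci_pair
    Primrec.snd.computableIn (ci_comp (ci_seg hD) (prim_pow4.comp Primrec.snd).computableIn)))
  let p : ℕ → ℕ → Bool := fun n s => decide (2 ^ s ≤ 2 ^ k *
    Nat.count (fun i => Hits c n (seg i.testBit s) (seg D (4 ^ s))) (2 ^ s))
  have hp : ∀ n s, p n s = true ↔ 2⁻¹ ^ k ≤
      coin {B | ∃ m < s, n ≤ m ∧ Hit c m (seg B s) (seg D (4 ^ (m + 1)))} := by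
    intro n s
    simp only [← hits_iff, p, decide_eq_true_eq]
    rw [coin_pred fun σ => Hits c n σ (seg D (4 ^ s)), two_pow_le, Nat.count_eq_card_filter_range]
  have hex : ∀ n, ∃ s, p n s = true := by
    intro n
    simp only [hp]
    have hm : Monotone fun s =>
        {B | ∃ m < s, n ≤ m ∧ Hit c m (seg B s) (seg D (4 ^ (m + 1)))} :=
      fun s t hst B ⟨m, h1, h2, h3⟩ => ⟨m, h1.trans_le hst, h2, h3.mono hc hst⟩
    have h1 := hk.trans_le (measure_mono (t := ⋃ s,
      {B | ∃ m < s, n ≤ m ∧ Hit c m (seg B s) (seg D (4 ^ (m + 1)))}) fun B hB => by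
        obtain ⟨m, h1, s, h2⟩ := hB n
        exact Set.mem_iUnion.2 ⟨max s (m + 1), m, by simp, h1, h2.mono hc (le_max_left _ _)⟩)
    rw [hm.measure_iUnion] at h1
    obtain ⟨s, hs⟩ := lt_iSup_iff.1 h1
    exact ⟨s, hs.le⟩
  exact ⟨k, fun n => Nat.find (hex n), ci_find (p := p) p3 hex,
    fun n => (hp _ _).1 (Nat.find_spec (hex n))⟩

/-- the column chooses the code `c` and hits `D` -/
def Col (c : Code) (D : ℕ → Bool) (m s : ℕ) : Set (ℕ → Bool) :=
  {U | cols U 0 ∈ {X | seg X (encode c + 1) = seg (fun i => decide (i < encode c)) (encode c + 1)} ∧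
    cols U 1 ∈ {X | Hit c m (seg X s) (seg D (4 ^ (m + 1)))}}

theorem meas_hit (c : Code) (D : ℕ → Bool) (m s : ℕ) :
    MeasurableSet {X | Hit c m (seg X s) (seg D (4 ^ (m + 1)))} :=
  measurableSet_setOfPred.2 (meas_seg (fun σ => Hit c m σ (seg D (4 ^ (m + 1)))) s)

theorem meas_Col (c : Code) (D : ℕ → Bool) (m s : ℕ) : MeasurableSet (Col c D m s) :=
  (meas_col 0 (meas_cyl _ _)).inter (meas_col 1 (meas_hit c D m s))

theorem tsum_Col {A D : ℕ → Bool} (hD : ComputableIn {chi A} D) {c : Code} (hc : Mono c)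
    (h : coin {B | ∀ N, ∃ m, N ≤ m ∧ ∃ s, Hit c m (seg B s) (seg D (4 ^ (m + 1)))} ≠ 0)
    {t : ℕ → ℕ} (ht : Monotone t)
    (he : ∀ g, ComputableIn {chi A} g → ∀ N, ∃ m, N ≤ m ∧ g m ≤ t m) :
    ∑' m, coin (Col c D m (t m)) = ∞ := by
  obtain ⟨k, g, hg, hk⟩ := exists_stage hD hc h
  by_contra hh
  have h1 := (ENNReal.tendsto_sum_nat_add _ hh).eventually
    (gt_mem_nhds (a := 2⁻¹ ^ (encode c + 1) * 2⁻¹ ^ k) (by simp [pos_iff_ne_zero]))
  obtain ⟨N, hN⟩ := eventually_atTop.1 h1
  obtain ⟨n, hn, hg'⟩ := he g hg N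
  refine (hN n hn).not_ge (le_trans ?_ (measure_iUnion_le _))
  have hm : MeasurableSet
      {B | ∃ m < g n, n ≤ m ∧ Hit c m (seg B (g n)) (seg D (4 ^ (m + 1)))} :=
    measurableSet_setOfPred.2 (meas_seg
      (fun σ => ∃ m < g n, n ≤ m ∧ Hit c m σ (seg D (4 ^ (m + 1)))) _)
  refine (mul_le_mul_right (hk n) _).trans ?_
  rw [← coin_seg (fun i => decide (i < encode c)), ← coin_two (meas_cyl _ _) hm]
  refine measure_mono fun U ⟨h1, m, _, h2, h3⟩ => Set.mem_iUnion.2 ⟨m - n, h1, ?_⟩
  rw [Nat.sub_add_cancel h2]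
  exact h3.mono hc (hg'.trans (ht h2))

theorem ae_Col {A D : ℕ → Bool} (h : ¬AEAvoiding A) (hD : ComputableIn {chi A} D) (c0 : Code) :
    ∀ᵐ B ∂coin, cols B 0 ∈ Esc A c0 → ∃ c, ∀ N, ∃ m, N ≤ m ∧ ∀ s, PL c0 m (seg (cols B 0) s) →
      cols (cols B 1) m ∈ Col c D m s := by
  classical
  obtain ⟨c, hc, h1⟩ := exists_hit h hD
  have h2 : ∀ᵐ z ∂coin.prod coin, z.1 ∈ Esc A c0 → ∀ N, ∃ m, N ≤ m ∧ ∀ s, PL c0 m (seg z.1 s) →
      cols z.2 m ∈ Col c D m s := by
    refine (Measure.ae_prod_iff_ae_ae (measurableSet_setOfPred.2 (((measurableSet_setOfPred.1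
      (meas_esc A c0)).comp measurable_fst).imp (Measurable.forall fun N => Measurable.exists
        fun m => measurable_const.and (Measurable.forall fun s =>
          ((meas_seg (PL c0 m) s).comp measurable_fst).imp ((measurableSet_setOfPred.1
            (meas_col m (meas_Col c D m s))).comp measurable_snd)))))).2
      (Eventually.of_forall fun B => ?_)
    by_cases hB : B ∈ Esc A c0
    · have h3 := tsum_Col hD hc h1 (t := fun m => Nat.find (hB.1 m))
        (fun m n hmn => Nat.find_mono fun s hs i hi => hs i (by omega)) fun g hg N => by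
          obtain ⟨m, hm, h4⟩ := hB.2 ⟨g, hg⟩ N
          exact ⟨m, hm, h4 _ (Nat.find_spec (hB.1 m))⟩
      filter_upwards [ae_frequently (fun m => meas_Col c D m _) h3] with U hU _ N
      obtain ⟨m, hm, h4⟩ := frequently_atTop.1 hU N
      exact ⟨m, hm, fun s hs => ⟨h4.1, Hit.mono hc (Nat.find_min' _ hs) h4.2⟩⟩
    · exact Eventually.of_forall fun U h => (hB h).elim
  rw [← map_two] at h2
  filter_upwards [ae_of_ae_map meas_two.aemeasurable h2] with B hB h3 using ⟨c, hB h3⟩

theorem ci_seg₂ {O : Set (ℕ →. ℕ)} {α : Type} [Primcodable α] {X : α → ℕ → Bool}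
    (h : ComputableIn O fun q : α × ℕ => X q.1 q.2) {n : α → ℕ} (hn : ComputableIn O n) :
    ComputableIn O fun a => seg (X a) (n a) := by
  have := ci_nat_rec (O := O) (f := n) (g := fun _ => ([] : List Bool))
    (h := fun a p => p.2 ++ [X a p.1]) hn (ComputableIn.const _)
    (ci_comp Primrec.list_concat.computableIn
      (ci_pair (Primrec.snd.comp Primrec.snd).computableIn
        (ci_comp h (Primrec.fst.pair (Primrec.fst.comp Primrec.snd)).computableIn)))
  refine ci_of_eq this fun a => ?_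
  induction n a with
  | zero => rfl
  | succ s ih => simp [seg, List.range_succ] at ih ⊢; exact ih

theorem hausdorff_gt_of_Col {A B : ℕ → Bool} {t : ℕ → ℕ} (ht : ComputableIn {chi B} t)
    (h : ∀ D, ComputableIn {chi A} D → ∃ c, ∀ N, ∃ m, N ≤ m ∧
      cols (cols B 1) m ∈ Col c D m (t m)) : 1 / 2 < hausdorff A B := by
  have c1 : ∀ j, ComputableIn {chi B} fun q : ℕ × ℕ => cols (cols (cols B 1) (lg q.1)) j q.2 :=
    fun j => ci_comp (f := cols B 1) (g := fun q : ℕ × ℕ => Nat.pair (lg q.1) (Nat.pair j q.2))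
      (ci_col B (ci_self B) 1) (Primrec₂.natPair.comp (prim_lg.comp Primrec.fst)
        (Primrec₂.natPair.comp (Primrec.const j) Primrec.snd)).computableIn
  have p1 : Primrec fun q : ℕ × Bool × List Bool × List Bool => if q.1 = 4 ^ lg q.1 then q.2.1 else
      !((univ (ofNat Code (q.2.2.1.findIdx fun b => !b)) (lg q.1) q.2.2.2).getD 0).testBit q.1 :=
    Primrec.ite (Primrec.eq.comp Primrec.fst (prim_pow4.comp (prim_lg.comp Primrec.fst)))
      (Primrec.fst.comp Primrec.snd)
      (Primrec.not.comp (prim_testBit.comp (Primrec.option_getD.comp (prim_univ.comp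
        (((Primrec.ofNat Code).comp (Primrec.list_findIdx (Primrec.fst.comp (Primrec.snd.comp
          Primrec.snd)) (Primrec.not.comp Primrec.snd).to₂)).pair
          ((prim_lg.comp Primrec.fst).pair (Primrec.snd.comp (Primrec.snd.comp Primrec.snd)))))
        (Primrec.const 0)) Primrec.fst))
  let C : ℕ → Bool := fun x => if x = 4 ^ lg x then B (lg x) else
      !((univ (ofNat Code ((seg (cols (cols (cols B 1) (lg x)) 0) (lg x)).findIdx fun b => !b))
        (lg x) (seg (cols (cols (cols B 1) (lg x)) 1) (t (lg x)))).getD 0).testBit x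
  have p2 := ci_comp p1.computableIn (ci_pair ComputableIn.id
    (ci_pair (ci_comp (ci_self B) prim_lg.computableIn)
      (ci_pair (ci_seg₂ (X := fun x => cols (cols (cols B 1) (lg x)) 0) (c1 0) prim_lg.computableIn)
        (ci_seg₂ (X := fun x => cols (cols (cols B 1) (lg x)) 1) (c1 1)
          (ci_comp ht prim_lg.computableIn)))))
  have hCB : TuringReducible (chi C) (chi B) := tr_of_ci p2
  have hBC : TuringReducible (chi B) (chi C) := by
    refine tr_of_ci (ci_of_eq (ci_comp (ci_self C) prim_pow4.computableIn) fun m => ?_)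
    have : lg (4 ^ m) = m := lg_eq le_rfl (Nat.pow_lt_pow_right (by norm_num) (by omega))
    simp only [C, this, if_true]
  refine hausdorff_gt (C := C) ⟨hCB, hBC⟩ fun D hD M => ?_
  obtain ⟨c, hc⟩ := h D (ci_of_tr hD.1)
  obtain ⟨m, hm, h1, h2⟩ := hc (M + encode c + 1)
  refine ⟨m, by omega, fun x hx1 hx2 => ?_⟩
  have hlg : lg x = m := lg_eq hx1.le hx2
  obtain ⟨v, hv, e⟩ := Option.map_eq_some_iff.1 h2
  have h3 := seg_eq_iff.1 h1
  have h4 : ((seg (cols (cols (cols B 1) m) 0) m).findIdx fun b => !b) = encode c := by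
    rw [List.findIdx_eq (by rw [seg_length]; omega)]
    refine ⟨?_, fun j hj => ?_⟩
    · simp [seg, h3 _ (Nat.lt_succ_self _)]
    · simp [seg, h3 j (by omega), hj]
  simp only [C, hlg, if_neg hx1.ne', h4, ofNat_encode, hv, Option.getD_some,
    seg_eq_iff.1 e x hx2]
  cases D x <;> simp

theorem classification (A : ℕ → Bool) : Attractive A ↔ AEDominating A ∨ AEAvoiding A := by
  classical
  refine ⟨fun hA => ?_, fun h => h.elim attractive_of_dom attractive_of_avoiding⟩
  by_contra hh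
  obtain ⟨h1, h2⟩ := not_or.1 hh
  obtain ⟨c0, hc0⟩ := exists_esc h1
  have h3 : {B | hausdorff A B = 1 / 2} ≤ᵐ[coin] {B | cols B 0 ∈ (Esc A c0)ᶜ} := by
    filter_upwards [(ae_ball_iff (countable_sets A)).2 fun D hD => ae_Col h2 hD c0]
      with B hB hH hE
    have hex : ∀ m, ∃ s, decide (PL c0 m (seg (cols B 0) s)) = true := fun m => by
      simpa using hE.1 m
    have p0 : Primrec fun q : ℕ × List Bool => decide (PL c0 q.1 q.2) := (prim_PL c0).decide
    have p1 := ci_comp p0.computableIn (ci_pair (α := ℕ × ℕ) Primrec.fst.computableIn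
      (ci_comp (ci_seg (ci_col B (ci_self B) 0)) Primrec.snd.computableIn))
    have ht := ci_find (p := fun m s => decide (PL c0 m (seg (cols B 0) s))) p1 hex
    refine (hausdorff_gt_of_Col ht fun D hD => ?_).ne' hH
    obtain ⟨c, hc⟩ := hB D hD hE
    refine ⟨c, fun N => ?_⟩
    obtain ⟨m, hm, h4⟩ := hc N
    exact ⟨m, hm, h4 _ (of_decide_eq_true (Nat.find_spec (hex m)))⟩
  have h4 := hA.ge.trans (measure_mono_ae h3)
  rw [coin_col 0 (meas_esc A c0).compl] at h4
  exact hc0 ((prob_compl_eq_one_iff (meas_esc A c0)).1 (le_antisymm prob_le_one h4))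

end Pool.Agent.P.MP_ef7593_lc.Dn
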