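import Pool.Agent.P.MP_ef7593_lc.Main

/-! A greedy choice of bits that disagrees with almost every output of a functional on a set of
upper density close to one half. -/

set_option autoImplicit false
set_option backward.isDefEq.respectTransparency false
open Filter MeasureTheory
open scoped ENNReal

namespace Pool.Agent.P.MP_ef7593_lc

/-- Weighted strings. -/
abbrev WS : Type := List (List Bool × ℕ)

/-- Extension of all strings by one bit. -/
def ext1 (T : WS) : WS := T.flatMap fun q => [(q.1 ++ [false], q.2), (q.1 ++ [true], q.2)]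

/-- The total weight. -/
def tot (T : WS) : ℕ := T.foldr (fun q s => q.2 + s) 0

/-- The weight of the strings with a given value of `P`. -/
def part (P : List Bool → Bool) (y : Bool) (T : WS) : ℕ :=
  T.foldr (fun q s => (if P q.1 = y then q.2 else 0) + s) 0

/-- The update of the weights. -/
def upd (m : ℕ) (P : List Bool → Bool) (y : Bool) (T : WS) : WS :=
  T.map fun q => (q.1, q.2 * if P q.1 = y then m else m + 2)

theorem tot_ext1 (T : WS) : tot (ext1 T) = 2 * tot T := by
  induction T with
  | nil => rfl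
  | cons q T ih =>
    simp only [tot, ext1, List.flatMap_cons, List.cons_append, List.nil_append,
      List.foldr_cons] at ih ⊢
    omega

theorem part_ext1 (y : Bool) (T : WS) : part (fun σ => σ.reverse.headI) y (ext1 T) = tot T := by
  induction T with
  | nil => rfl
  | cons q T ih =>
    simp only [tot, part, ext1, List.flatMap_cons, List.cons_append, List.nil_append,
      List.foldr_cons] at ih ⊢
    rw [ih]
    cases y <;> simp

theorem tot_eq (P : List Bool → Bool) (y : Bool) (T : WS) :
    tot T = part P y T + part P (!y) T := by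
  induction T with
  | nil => rfl
  | cons q T ih =>
    simp only [tot, part, List.foldr_cons] at ih ⊢
    rw [ih]
    cases y <;> cases P q.1 <;> simp <;> omega

theorem tot_upd (m : ℕ) (P : List Bool → Bool) (y : Bool) (T : WS) :
    tot (upd m P y T) = m * part P y T + (m + 2) * part P (!y) T := by
  induction T with
  | nil => rfl
  | cons q T ih =>
    simp only [tot, part, upd, List.map_cons, List.foldr_cons] at ih ⊢
    rw [ih]
    cases y <;> cases P q.1 <;> simp <;> ring

theorem len_ext {T : WS} {L : ℕ} (h : ∀ q ∈ T, q.1.length = L) (k : ℕ) :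
    ∀ q ∈ ext1^[k] T, q.1.length = L + k := by
  induction k with
  | zero => exact h
  | succ k ih =>
    intro q hq
    rw [Function.iterate_succ_apply', ext1, List.mem_flatMap] at hq
    obtain ⟨r, hr, hq⟩ := hq
    have := ih r hr
    simp only [List.mem_cons, List.not_mem_nil, or_false] at hq
    rcases hq with rfl | rfl <;> simp [this, add_assoc]

theorem seg_succ (B : ℕ → Bool) (L : ℕ) : seg B (L + 1) = seg B L ++ [B L] := by
  simp [seg, List.range_succ]

theorem mem_ext {T : WS} {L w : ℕ} {B : ℕ → Bool} (h : (seg B L, w) ∈ T) (k : ℕ) :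
    (seg B (L + k), w) ∈ ext1^[k] T := by
  induction k with
  | zero => exact h
  | succ k ih =>
    rw [Function.iterate_succ_apply', ext1, List.mem_flatMap]
    refine ⟨_, ih, ?_⟩
    rw [← add_assoc, seg_succ]
    cases B (L + k) <;> simp

theorem tot_ext (T : WS) (k : ℕ) : tot (ext1^[k] T) = 2 ^ k * tot T := by
  induction k with
  | zero => simp
  | succ k ih => rw [Function.iterate_succ_apply', tot_ext1, ih]; ring

theorem coin_seg (σ : List Bool) (L : ℕ) : coin {B | seg B L = σ} ≤ 2⁻¹ ^ L := by
  rcases Set.eq_empty_or_nonempty {B | seg B L = σ} with h | ⟨X, hX⟩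
  · simp [h]
  have e : {B | seg B L = σ} = Set.pi (Finset.range L : Finset ℕ) fun i => {X i} := by
    ext B
    simp [← show seg X L = σ from hX, seg_eq_iff]
  rw [e]
  unfold coin
  rw [Measure.infinitePi_pi _ fun _ _ => measurableSet_singleton _]
  simp

theorem markov (K : ℝ) (L : ℕ) (T : WS) :
    ENNReal.ofReal K * coin {B | ∃ w : ℕ, K ≤ w ∧ (seg B L, w) ∈ T} ≤ tot T * 2⁻¹ ^ L := by
  induction T with
  | nil => simp
  | cons q T ih =>
    have e : (tot (q :: T) : ℝ≥0∞) = q.2 + tot T := by simp [tot]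
    rw [e, add_mul]
    by_cases h : K ≤ q.2
    · have s : {B | ∃ w : ℕ, K ≤ w ∧ (seg B L, w) ∈ q :: T} ⊆
          {B | seg B L = q.1} ∪ {B | ∃ w : ℕ, K ≤ w ∧ (seg B L, w) ∈ T} := by
        rintro B ⟨w, hw, hB⟩
        rcases List.mem_cons.1 hB with rfl | hB
        · exact Or.inl rfl
        · exact Or.inr ⟨w, hw, hB⟩
      refine (mul_le_mul_right ((measure_mono s).trans (measure_union_le _ _)) _).trans ?_
      rw [mul_add]
      refine add_le_add (mul_le_mul' ?_ (coin_seg _ _)) ih
      exact (ENNReal.ofReal_le_ofReal h).trans_eq (ENNReal.ofReal_natCast _)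
    · refine le_add_left ((mul_le_mul_right (measure_mono ?_) _).trans ih)
      rintro B ⟨w, hw, hB⟩
      rcases List.mem_cons.1 hB with rfl | hB
      · exact absurd hw h
      · exact ⟨w, hw, hB⟩

variable (m : ℕ) (p : ℕ → List Bool → Bool) (g : ℕ → ℕ) (ch : ℕ → WS → Bool)

/-- The states of the construction. -/
def st (n : ℕ) : WS :=
  Nat.rec [([], 1)] (fun n T => upd m (p n) (ch n (ext1^[g n] T)) (ext1^[g n] T)) n

/-- The chosen bits. -/
def bit (n : ℕ) : Bool := ch n (ext1^[g n] (st m p g ch n))

/-- The length of the strings. -/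
def len (n : ℕ) : ℕ := ∑ i ∈ Finset.range n, g i

theorem st_succ (n : ℕ) :
    st m p g ch (n + 1) = upd m (p n) (bit m p g ch n) (ext1^[g n] (st m p g ch n)) := rfl

theorem st_mem (B : ℕ → Bool) (n : ℕ) : (seg B (len g n), ∏ i ∈ Finset.range n,
    if p i (seg B (len g (i + 1))) = bit m p g ch i then m else m + 2) ∈ st m p g ch n := by
  induction n with
  | zero => simp [st, len, seg]
  | succ n ih =>
    rw [st_succ, Finset.prod_range_succ]
    refine List.mem_map.2 ⟨_, mem_ext ih (g n), ?_⟩
    simp only [len, Finset.sum_range_succ]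

variable (H : ∀ n T, part (p n) (!ch n (ext1^[g n] T)) (ext1^[g n] T) ≤
  part (p n) (ch n (ext1^[g n] T)) (ext1^[g n] T))
include H

theorem st_tot (n : ℕ) : tot (st m p g ch n) ≤ (m + 1) ^ n * 2 ^ len g n := by
  induction n with
  | zero => simp [st, len, tot]
  | succ n ih =>
    have h1 := H n (st m p g ch n)
    have h2 := tot_eq (p n) (bit m p g ch n) (ext1^[g n] (st m p g ch n))
    have h3 : tot (st m p g ch (n + 1)) ≤ (m + 1) * tot (ext1^[g n] (st m p g ch n)) := by
      rw [st_succ, tot_upd, h2]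
      unfold bit
      nlinarith
    rw [tot_ext] at h3
    refine h3.trans ?_
    calc (m + 1) * (2 ^ g n * tot (st m p g ch n))
        ≤ (m + 1) * (2 ^ g n * ((m + 1) ^ n * 2 ^ len g n)) := by gcongr
      _ = _ := by simp only [len, Finset.sum_range_succ]; ring

theorem tail {ε : ℝ} (hε : 0 < ε) (hm : 1 < ε * m) : ∀ᵐ B ∂coin,
    delta (fun i => p i (seg B (len g (i + 1)))) (bit m p g ch) ≤ 1 / 2 + ε := by
  have m0 : (0 : ℝ) < m := (pos_iff_pos_of_mul_pos (zero_lt_one.trans hm)).1 hε
  obtain ⟨a, ha⟩ : ∃ a, a = Real.log (1 + 2 / m) := ⟨_, rfl⟩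
  obtain ⟨b, hb⟩ : ∃ b, b = Real.log (1 + 1 / m) := ⟨_, rfl⟩
  have ea : Real.exp a = 1 + 2 / m := by rw [ha, Real.exp_log (by positivity)]
  have eb : Real.exp b = 1 + 1 / m := by rw [hb, Real.exp_log (by positivity)]
  have a1 : 2 / (m + 2) ≤ a := by
    have := Real.one_sub_inv_le_log_of_pos (show (0 : ℝ) < 1 + 2 / m by positivity)
    rw [← ha] at this
    refine le_trans (le_of_eq ?_) this
    field_simp
    ring
  have b1 : b ≤ 1 / m := by
    have := Real.log_le_sub_one_of_pos (show (0 : ℝ) < 1 + 1 / m by positivity)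
    linarith
  have a0 : 0 ≤ a := le_trans (by positivity) a1
  have hη : b - (1 / 2 + ε) * a < 0 := by
    have k1 : (1 : ℝ) / m < (1 / 2 + ε) * (2 / (m + 2)) := by
      rw [mul_div_assoc', div_lt_div_iff₀ m0 (by positivity)]
      nlinarith
    have k2 := mul_le_mul_of_nonneg_left a1 (show 0 ≤ 1 / 2 + ε by positivity)
    linarith
  set Z : (ℕ → Bool) → ℕ → Bool :=
    fun B i => xor (p i (seg B (len g (i + 1)))) (bit m p g ch i) with hZ
  have bound : ∀ n : ℕ, coin {B | 1 / 2 + ε ≤ ratio (Z B) n} ≤
      ENNReal.ofReal (Real.exp (b - (1 / 2 + ε) * a) ^ n) := fun n => by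
    set K : ℝ := (m * Real.exp ((1 / 2 + ε) * a)) ^ n with hK
    have K0 : 0 < K := by positivity
    have s : {B | 1 / 2 + ε ≤ ratio (Z B) n} ⊆
        {B | ∃ w : ℕ, K ≤ w ∧ (seg B (len g n), w) ∈ st m p g ch n} := fun B hB => by
      refine ⟨_, ?_, st_mem m p g ch B n⟩
      have n0 : (0 : ℝ) < n := by
        rcases Nat.eq_zero_or_pos n with rfl | h
        · have : 1 / 2 + ε ≤ ratio (Z B) 0 := hB
          simp only [ratio, Nat.cast_zero, div_zero] at this
          linarith
        · exact_mod_cast h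
      have h1 := (le_div_iff₀ n0).1 (show 1 / 2 + ε ≤ _ / (n : ℝ) from hB)
      have h2 : ∀ i ∈ Finset.range n, ((if p i (seg B (len g (i + 1))) = bit m p g ch i then m
          else m + 2 : ℕ) : ℝ) = m * if Z B i = true then Real.exp a else 1 := fun i _ => by
        simp only [hZ, ea]
        cases p i (seg B (len g (i + 1))) <;> cases bit m p g ch i <;> simp <;> field_simp
      rw [Nat.cast_prod, Finset.prod_congr rfl h2, Finset.prod_mul_distrib, Finset.prod_const,
        Finset.card_range, Finset.prod_ite, Finset.prod_const_one, mul_one, Finset.prod_const, hK,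
        mul_pow, ← Real.exp_nat_mul, ← Real.exp_nat_mul]
      exact mul_le_mul_of_nonneg_left (Real.exp_le_exp.2 (by nlinarith)) (by positivity)
    have k1 := (mul_le_mul_right (measure_mono s) _).trans (markov K (len g n) (st m p g ch n))
    have k2 : (tot (st m p g ch n) : ℝ≥0∞) * 2⁻¹ ^ len g n ≤ ((m + 1) ^ n : ℕ) := by
      have := (Nat.cast_le (α := ℝ≥0∞)).2 (st_tot m p g ch H n)
      refine (mul_le_mul_left this _).trans_eq ?_
      rw [Nat.cast_mul, mul_assoc, Nat.cast_pow 2, ← mul_pow, Nat.cast_ofNat,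
        ENNReal.mul_inv_cancel two_ne_zero ENNReal.ofNat_ne_top, one_pow, mul_one]
    have k3 : (((m + 1) ^ n : ℕ) : ℝ≥0∞) =
        ENNReal.ofReal K * ENNReal.ofReal (Real.exp (b - (1 / 2 + ε) * a) ^ n) := by
      rw [← ENNReal.ofReal_mul K0.le, hK, ← mul_pow, mul_assoc, ← Real.exp_add,
        add_sub_cancel, eb, ← ENNReal.ofReal_natCast]
      congr 1
      push_cast
      congr 1
      field_simp
    exact (ENNReal.mul_le_mul_iff_right (ENNReal.ofReal_pos.2 K0).ne' ENNReal.ofReal_ne_top).1
      ((k1.trans k2).trans_eq k3)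
  have fin : ∑' n : ℕ, coin {B | 1 / 2 + ε ≤ ratio (Z B) n} ≠ ∞ := by
    refine ne_top_of_le_ne_top ?_ (ENNReal.tsum_le_tsum bound)
    rw [← ENNReal.ofReal_tsum_of_nonneg (fun _ => by positivity)
      (summable_geometric_of_lt_one (Real.exp_pos _).le (Real.exp_lt_one_iff.2 hη))]
    exact ENNReal.ofReal_ne_top
  filter_upwards [ae_eventually_notMem fin] with B hB
  exact limsup_le_of_le (ratio_cobdd _) (hB.mono fun n hn => (not_le.1 hn).le)

end Pool.Agent.P.MP_ef7593_lc
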