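import Mathlib
import Pool.Agent.P.MP_ef7593_lc.Escape
import Pool.Agent.P.MP_ef7593_lc.Coin

/-! Every attractive c.e. degree is high. -/

set_option autoImplicit false
set_option backward.isDefEq.respectTransparency false
open Encodable Filter MeasureTheory
open scoped ENNReal

namespace Pool.Agent.P.MP_ef7593_lc

/-- The halting condition of the waiting functional. -/
def Stop (ch : ℕ → ℕ → Bool) (B : ℕ → Bool) (n t : ℕ) : Prop :=
  B ∉ cyl (n.unpair.1 + 2) n ∨ ch n.unpair.1 n.unpair.2 = false ∨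
    (n.unpair.2 < t ∧ ch n.unpair.1 t = true)

theorem coin_not_total (ch : ℕ → ℕ → Bool) : coin {B | ¬ ∀ n, ∃ t, Stop ch B n t} ≤ 2⁻¹ := by
  classical
  let last : ℕ → ℕ := fun e =>
    if h : ∃ s, ch e s = true ∧ ∀ t, s < t → ch e t = false then h.choose else 0
  refine le_trans (measure_mono fun B hB => ?_) (coin_iUnion_le fun e => Nat.pair e (last e))
  simp only [Set.mem_ofPred_eq, not_forall, not_exists, Stop, not_or, not_not, not_and,
    Bool.not_eq_true, Bool.not_eq_false] at hB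
  obtain ⟨n, hn⟩ := hB
  have h : ∃ s, ch n.unpair.1 s = true ∧ ∀ t, s < t → ch n.unpair.1 t = false :=
    ⟨n.unpair.2, (hn 0).2.1, fun t => (hn t).2.2⟩
  have h1 : last n.unpair.1 = n.unpair.2 := by
    simp only [last, dif_pos h]
    rcases lt_trichotomy h.choose n.unpair.2 with k | k | k
    · exact Bool.noConfusion ((h.choose_spec.2 _ k).symm.trans (hn 0).2.1)
    · exact k
    · exact Bool.noConfusion (((hn _).2.2 k).symm.trans h.choose_spec.1)
  refine Set.mem_iUnion.2 ⟨n.unpair.1, ?_⟩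
  rw [h1, Nat.pair_unpair]
  exact (hn 0).1

theorem fin_of_pos {ch : ℕ → ℕ → Bool} {f : ℕ → ℕ}
    (h : coin {B | ∀ n, ∃ t, t ≤ f n ∧ Stop ch B n t} ≠ 0) (e : ℕ) :
    ∃ N, ∀ s, N ≤ s → ch e s = true → ∃ t, t ≤ f (Nat.pair e s) ∧ s < t ∧ ch e t = true := by
  by_contra hh
  push Not at hh
  have hT : {s | ch e s = true ∧
      ∀ t, t ≤ f (Nat.pair e s) → s < t → ch e t ≠ true}.Infinite :=
    Set.infinite_of_forall_exists_gt fun N => by
      obtain ⟨s, h1, h2⟩ := hh (N + 1)
      exact ⟨s, h2, h1⟩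
  have hT' := hT.image (f := Nat.pair e) fun a _ b _ hab => (Nat.pair_eq_pair.1 hab).2
  refine h (measure_mono_null (fun B hB => ?_) (coin_avoid (e + 2) hT'))
  rintro _ ⟨s, ⟨h1, h2⟩, rfl⟩ hc
  obtain ⟨t, ht, hs⟩ := hB (Nat.pair e s)
  simp only [Stop, Nat.unpair_pair] at hs
  rcases hs with hs | hs | hs
  · exact hs hc
  · exact Bool.noConfusion (hs.symm.trans h1)
  · exact h2 t ht hs.1 hs.2

theorem exists_stop_time {ch : ℕ → ℕ → Bool} (hch : Primrec₂ ch) {B : ℕ → Bool}
    (hB : ∀ n, ∃ t, Stop ch B n t) :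
    ∃ t : ℕ → ℕ, ComputableIn {chi B} t ∧ ∀ n, Stop ch B n (t n) := by
  have u1 : Primrec fun q : (ℕ × ℕ) × List Bool => q.1.1.unpair.1 :=
    Primrec.fst.comp (Primrec.unpair.comp (Primrec.fst.comp Primrec.fst))
  have u2 : Primrec fun q : (ℕ × ℕ) × List Bool => q.1.1.unpair.2 :=
    Primrec.snd.comp (Primrec.unpair.comp (Primrec.fst.comp Primrec.fst))
  have u3 : Primrec fun q : (ℕ × ℕ) × List Bool => q.1.2 := Primrec.snd.comp Primrec.fst
  have p0 : PrimrecRel fun (i : ℕ) (q : (ℕ × ℕ) × List Bool) =>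
      q.2[Nat.pair q.1.1 i]? = some true :=
    Primrec.eq.comp (Primrec.list_getElem?.comp (Primrec.snd.comp Primrec.snd)
      (Primrec₂.natPair.comp (Primrec.fst.comp (Primrec.fst.comp Primrec.snd)) Primrec.fst))
      (Primrec.const _)
  have p1 : PrimrecPred fun q : (ℕ × ℕ) × List Bool =>
      (¬ ∀ i ∈ List.range (q.1.1.unpair.1 + 2), q.2[Nat.pair q.1.1 i]? = some true) ∨
        ch q.1.1.unpair.1 q.1.1.unpair.2 = false ∨
        (q.1.1.unpair.2 < q.1.2 ∧ ch q.1.1.unpair.1 q.1.2 = true) :=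
    (p0.forall_mem_list.comp (Primrec.list_range.comp
      (Primrec.nat_add.comp u1 (Primrec.const 2))) Primrec.id).not.or
      ((Primrec.eq.comp (hch.comp u1 u2) (Primrec.const false)).or
        ((Primrec.nat_lt.comp u2 u3).and (Primrec.eq.comp (hch.comp u1 u3) (Primrec.const true))))
  obtain ⟨inst, p1⟩ := p1
  have u4 : Primrec fun q : ℕ × ℕ => Nat.pair q.1 (q.1.unpair.1 + 2) :=
    Primrec₂.natPair.comp Primrec.fst (Primrec.nat_add.comp
      (Primrec.fst.comp (Primrec.unpair.comp Primrec.fst)) (Primrec.const 2))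
  have p2 := ci_comp p1.computableIn (ci_pair ComputableIn.id (ci_comp (ci_seg (ci_self B))
    u4.computableIn))
  let p : ℕ → ℕ → Bool := fun n t =>
    @decide _ (inst ((n, t), seg B (Nat.pair n (n.unpair.1 + 2))))
  have hp : ∀ n t, p n t = true ↔ Stop ch B n t := by
    intro n t
    simp only [p, decide_eq_true_eq, List.mem_range, Stop, cyl, Set.mem_ofPred_eq]
    refine or_congr (not_congr (forall₂_congr fun i hi => ?_)) Iff.rfl
    rw [seg_getElem? B (Nat.pair_lt_pair_right n hi), Option.some.injEq]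
  have hex : ∀ n, ∃ t, p n t = true := fun n => by simpa only [hp] using hB n
  exact ⟨fun n => Nat.find (hex n), ci_find (p := p) p2 hex,
    fun n => (hp _ _).1 (Nat.find_spec (hex n))⟩

theorem exists_dominating {A : ℕ → Bool} {a : ℕ → ℕ → Bool} (ha : Approx A a)
    (hA : Attractive A) {ch : ℕ → ℕ → Bool} (hch : Primrec₂ ch) :
    ∃ f : ℕ → ℕ, ComputableIn {chi A} f ∧
      coin {B | ∀ n, ∃ t, t ≤ f n ∧ Stop ch B n t} ≠ 0 := by
  by_contra hh
  push Not at hh
  have h1 : coin (⋃ f ∈ {f : ℕ → ℕ | ComputableIn {chi A} f},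
      {B | ∀ n, ∃ t, t ≤ f n ∧ Stop ch B n t}) = 0 :=
    (measure_biUnion_null_iff (countable_computableIn A)).2 hh
  have h2 : {B | hausdorff A B = 1 / 2} ⊆ {B | ¬ ∀ n, ∃ t, Stop ch B n t} ∪
      ⋃ f ∈ {f : ℕ → ℕ | ComputableIn {chi A} f}, {B | ∀ n, ∃ t, t ≤ f n ∧ Stop ch B n t} := by
    intro B hB
    by_contra hc
    simp only [Set.mem_union, Set.mem_ofPred_eq, not_or, not_not, Set.mem_iUnion,
      not_exists] at hc
    obtain ⟨t, ht, hs⟩ := exists_stop_time hch hc.1
    refine (hausdorff_gt_of_escape ha ht fun f hf => ?_).ne' hB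
    by_contra k
    push Not at k
    exact hc.2 f hf fun n => ⟨t n, k n, hs n⟩
  have h3 := (measure_mono h2).trans (measure_union_le (μ := coin) _ _)
  rw [h1, add_zero, show coin {B | hausdorff A B = 1 / 2} = 1 from hA] at h3
  have h4 := h3.trans (coin_not_total ch)
  exact absurd h4 (by norm_num)

theorem degClosure_congr {A W : ℕ → Bool} (h : TuringEquivalent (chi W) (chi A)) :
    degClosure W = degClosure A := by
  ext X
  refine forall₂_congr fun ε _ => exists_congr fun C => and_congr_left fun _ => ?_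
  exact ⟨fun k => TuringEquivalent.trans _ _ _ k h, fun k => TuringEquivalent.trans _ _ _ k h.symm⟩

theorem main {A W : ℕ → Bool} (hW : REPred fun n => W n = true)
    (hWA : TuringEquivalent (chi W) (chi A)) (hA : Attractive A) : High A := by
  obtain ⟨a, ha⟩ := approx_of_re hW
  have hW' : Attractive W := by
    unfold Attractive hausdorff at hA ⊢
    rw [degClosure_congr hWA]
    exact hA
  set K := J fun _ => false with hK
  obtain ⟨k, hk⟩ := (isJump_J fun _ => false).1.approx
  obtain ⟨R, hR, hRK⟩ := sigma2_J hk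
  obtain ⟨ch, hch, hfin⟩ := fin_of_sigma2 hR
  obtain ⟨f, hf, hpos⟩ := exists_dominating ha hW' hch
  have hf' : ComputableIn {chi A} f := RecursiveIn.subst hf (by simpa using hWA.1)
  refine ⟨J A, K, J K, isJump_J A, isJump_J _, isJump_J K, ?_, ?_⟩
  · have h1 : TuringReducible (chi W) (chi K) := (isJump_J _).2 W (ha.ceIn _)
    exact (isJump_J K).2 _ ((isJump_J A).1.mono (TuringReducible.trans hWA.2 h1))
  · exact decide_fin hch (fun e => (hRK e).trans (hfin e)) hf' (fin_of_pos hpos)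

end Pool.Agent.P.MP_ef7593_lc
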